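import Pool.Agent.H18.TXB.Eq

/-!
# Backward heights on threefolds: lemmas for the core
-/

set_option autoImplicit false

open MvPolynomial
open Pool.Agent.H12.ZD (pmap)
open Pool.Agent.H18.HIT Pool.Agent.H18.HX Pool.Agent.H18.VZ
open Pool.Agent.H8.ZA (HFam Const NA)
open Pool.Agent.H8.TD (lc dg Wsp Cop dh lc_single lc_map lc_iterate)
open Pool.Agent.H8.TX
open Pool.Agent.H18.TE (lg Gc T_GAL T_FIX T_EQD)
open Pool.Agent.H18.BKH (map_eval map_pmap map_orbit eval_memL orbit_memL Gc.prod_mem growB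
  bounded_of_rec)

namespace Pool.Agent.H18.TXB

/-- the preimages under an iterate and under the map -/
theorem upv_one {L : ℕ} {k : Type} [Field k] {I : Ideal (Po L k)} {F : Tup L k} (hs : Slf I F)
    {m : ℕ} (hm : 1 ≤ m) {e : ℕ} (h : Upv I (it F m) e) : Upv I F e := by
  obtain ⟨c, hc, h1⟩ := h
  refine ⟨aeval (it F (m - 1)) c, fun h0 => hc ((hs.it (m - 1)).inj c h0),
    fun y hy hyc S hS hS' => ?_⟩
  rw [Pool.Agent.H18.HIT.eval_aeval, pmap_it] at hyc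
  apply h1 ((pmap F)^[m - 1] y) (zer_iterate hs.inv hy _) hyc S _ hS'
  intro x hx
  refine ⟨(hS x hx).1, ?_⟩
  obtain ⟨m', rfl⟩ : ∃ m', m = m' + 1 := ⟨m - 1, by omega⟩
  rw [pmap_it, Function.iterate_succ_apply, (hS x hx).2, Nat.add_sub_cancel]

/-- the direction of the line -/
theorem dirB {E Y' : ℕ} {Cf : Fin (E + 1) → Po 4 Qb} (hCf : ∀ j, (Cf j).IsHomogeneous Y')
    (hcop : Cop Cf) {w : Fin 4 → Qb} (hw : w 0 ≠ 0) (hw0 : eval w (Cf 0) ≠ 0) :
    ∃ c' : Po 4 Qb, c' ≠ 0 ∧ ∀ b' : Fin 4 → Qb, eval b' c' ≠ 0 → ∀ ϖ : Qb, ϖ ≠ 0 →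
      (∃ i, ϖ * b' i ≠ 0) ∧ (∀ t : Qb, ∃ i, w i + t * (ϖ * b' i) ≠ 0) ∧
      eval (fun i => ϖ * b' i) (Cf 0) ≠ 0 ∧
      ∀ t : Qb, ∃ j, eval (fun i => w i + t * (ϖ * b' i)) (Cf j) ≠ 0 := by
  have hC0 : Cf 0 ≠ 0 := by
    intro h0
    rw [h0, map_zero] at hw0
    exact hw0 rfl
  obtain ⟨cL, hcL, hcL'⟩ := Pool.Agent.H8.TD.Al.lav Qb (E + 1) Cf w hcop ⟨0, hw0⟩
  have h01 : (0 : Fin 4) ≠ 1 := by decide
  have hcM : (C (w 0) * X 1 - C (w 1) * X 0 : Po 4 Qb) ≠ 0 := by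
    intro h0
    have h1 := congrArg (coeff (Finsupp.single 1 1)) h0
    rw [coeff_sub, coeff_C_mul, coeff_C_mul, coeff_X, coeff_X, if_pos rfl, if_neg
      (fun h => h01 ((Finsupp.single_left_inj one_ne_zero).mp h)), mul_zero, sub_zero, mul_one,
      coeff_zero] at h1
    exact hw h1
  refine ⟨cL * (C (w 0) * X 1 - C (w 1) * X 0) * Cf 0 * X 0, mul_ne_zero (mul_ne_zero
    (mul_ne_zero hcL hcM) hC0) (X_ne_zero 0), fun b' hb' ϖ hϖ => ?_⟩
  rw [map_mul, map_mul, map_mul] at hb'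
  have hbL := hcL' b' (left_ne_zero_of_mul (left_ne_zero_of_mul (left_ne_zero_of_mul hb')))
  have hbM := right_ne_zero_of_mul (left_ne_zero_of_mul (left_ne_zero_of_mul hb'))
  have hbG := right_ne_zero_of_mul (left_ne_zero_of_mul hb')
  have hb0 := right_ne_zero_of_mul hb'
  rw [eval_X] at hb0
  rw [map_sub, map_mul, map_mul, eval_C, eval_C, eval_X, eval_X] at hbM
  refine ⟨⟨0, mul_ne_zero hϖ hb0⟩, fun t => ?_, ?_, fun t => ?_⟩
  · by_contra hcon
    push Not at hcon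
    have h1 := hcon 0
    have h2 := hcon 1
    apply hbM
    have h4 : ϖ * (w 0 * b' 1 - w 1 * b' 0) = 0 := by
      have h5 : w 0 = -(t * (ϖ * b' 0)) := eq_neg_of_add_eq_zero_left h1
      have h6 : w 1 = -(t * (ϖ * b' 1)) := eq_neg_of_add_eq_zero_left h2
      rw [h5, h6]
      ring
    exact (mul_eq_zero.mp h4).resolve_left hϖ
  · rw [Pool.Agent.H8.TD.eval_smul (hCf 0)]
    exact mul_ne_zero (pow_ne_zero _ hϖ) hbG
  · obtain ⟨i, hi⟩ := hbL (t * ϖ)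
    refine ⟨i, ?_⟩
    have h1 : (fun j => w j + t * (ϖ * b' j)) = fun j => w j + t * ϖ * b' j := by
      funext j
      ring
    rw [h1]
    exact hi

section deg

variable {K : Type} [Field K] [Algebra Qb K] {P : Po 5 Qb} {F : Tup 5 Qb} {ξ : Fin 5 → K}
  {τ : K →ₐ[Qb] K} {r : ℕ} {a : ℕ → ℕ} {e : ℕ}

/-- lower bound for the degree of the forms which represent an iterate -/
theorem deg_lower (hINX : T_INX) (hBZX : T_BZX) (hLDX : T_LDX) (h : DatX P r F ξ τ a e) {n b : ℕ}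
    {H : Tup 5 Qb} (hH : ∀ i, (H i).IsHomogeneous b) (hH0 : ∃ i, ¬ P ∣ H i)
    (hHc : ∀ i j, P ∣ it F n i * H j - it F n j * H i) : a n ≤ b * r := by
  obtain ⟨s, s', s'', h1⟩ := h.b5 hLDX n
  refine h1.trans ?_
  have hF1 := h.ne n
  have hrel : ∀ i, aeval ξ (it F n i) * aeval ξ (H 1) = aeval ξ (it F n 1) * aeval ξ (H i) := by
    intro i
    have h2 := aeval_dvd h.fd.gp h.hyp (hHc i 1)
    rw [map_sub, map_mul, map_mul] at h2
    exact sub_eq_zero.1 h2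
  have hH1 : aeval ξ (H 1) ≠ 0 := by
    intro h0
    obtain ⟨i, hi⟩ := hH0
    apply hi
    apply (h.fd.gp.iff b (H i) (hH i)).1
    have h2 := hrel i
    rw [h0, mul_zero] at h2
    exact (mul_eq_zero.1 h2.symm).resolve_left hF1
  obtain ⟨q, hq⟩ : ∃ q : Po 5 Qb, q = -∑ i, C (s i) * H i := ⟨_, rfl⟩
  have hqd : q.totalDegree ≤ b := by
    rw [hq, totalDegree_neg]
    refine totalDegree_finsetSum_le fun i _ => (totalDegree_mul _ _).trans ?_
    rw [totalDegree_C, zero_add]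
    exact (hH i).totalDegree_le
  have hqξ : aeval ξ q = -(lc s (pn τ ξ n) * aeval ξ (H 1)) := by
    rw [hq, map_neg, map_sum, lc, Finset.sum_mul]
    congr 1
    refine Finset.sum_congr rfl fun i _ => ?_
    rw [map_mul, aeval_C, Algebra.smul_def, h.eq]
    have h2 := hrel i
    have h3 : aeval ξ (H i) = aeval ξ (it F n i) / aeval ξ (it F n 1) * aeval ξ (H 1) := by
      rw [div_mul_eq_mul_div, h2, mul_div_cancel_left₀ _ hF1]
    rw [h3]
    ring
  refine hINX Qb K 5 ξ (lc s' ξ) (lc s'' ξ) (lc s (pn τ ξ n)) b r 1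
    (fun j => if j = 0 then q else H 1) h.fd.gp.trd
    (fun u => hBZX Qb K P r ξ h.hyp h.fd.gp u s' s'') (fun j => ?_) ?_ ?_
  · split_ifs
    · exact hqd
    · exact (hH 1).totalDegree_le
  · rw [if_neg one_ne_zero]
    exact hH1
  · rw [Finset.sum_range_succ, Finset.sum_range_one, if_pos rfl, if_neg one_ne_zero, hqξ, pow_zero,
      pow_one]
    ring

end deg

/-- comparison of exponential functions -/
theorem pow_shift {c c' : ℝ} (hc : 0 < c) (h : c < c') (R : ℝ) :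
    ∃ N : ℕ, ∀ n ≥ N, R * c ^ n ≤ c' ^ n := by
  have h1 : 1 < c' / c := by
    rw [lt_div_iff₀ hc]
    linarith
  obtain ⟨N, hN⟩ := pow_unbounded_of_one_lt R h1
  refine ⟨N, fun n hn => ?_⟩
  have h2 : R ≤ (c' / c) ^ n := hN.le.trans (pow_le_pow_right₀ h1.le hn)
  rw [div_pow, le_div_iff₀ (pow_pos hc n)] at h2
  exact h2

section orbit

variable {K : IntermediateField ℚ Qb}

/-- the iterates along a backward orbit -/
theorem back_iter {F : Tup 5 Qb} {k : ℕ} {x : ℕ → Fin 5 → Qb}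
    (hx : ∀ j, (pmap F)^[k] (x (j + 1)) = x j) (l i : ℕ) : (pmap F)^[k * l] (x (i + l)) = x i := by
  induction l generalizing i with
  | zero => rfl
  | succ l ih =>
    rw [Nat.mul_succ, Function.iterate_add_apply, show i + (l + 1) = (i + l) + 1 by omega, hx, ih]

/-- growth of the averaged heights along the backward orbit -/
theorem growX {F : Tup 5 Qb} {m k₀ k N : ℕ} (hk : k = k₀ * m) (hk₀ : 1 ≤ k₀) (hN : 1 ≤ N)
    {x : ℕ → Fin 5 → Qb} (hx : ∀ j, (pmap F)^[k] (x (j + 1)) = x j) (F' : HFam K)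
    {Γ : Finset (Qb ≃ₐ[K] Qb)} {L : IntermediateField K Qb} (hΓ : Gc K Γ L)
    (hKF : ∀ i, ∀ c ∈ (F i).coeffs, c ∈ K) (hxL : ∀ i, x N i ∈ L) (G : (Fin 5 → Qb) → Prop)
    (hG : ∀ n, G ((pmap F)^[n] (x N))) {κ β ρ c₀ A B C : ℝ}
    (hrec : ∀ y : Fin 5 → Qb, (∀ i, y i ∈ L) → G y → κ * avn F' Γ (af ((pmap F)^[m] y)) ≤
      avn F' Γ (af y) + β * avn F' Γ (af ((pmap F)^[m + m] y)) + Γ.card * c₀)
    (hκ : 2 < κ) (hβ : 0 ≤ β) (hβκ : 8 * β ≤ κ ^ 2) (hβρ : 8 * β ≤ κ * ρ) (hρ : 0 < ρ)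
    (hB : 0 ≤ B) (h0 : avn F' Γ (af (x 0)) ≤ Γ.card * (A + B))
    (h1 : Γ.card * (ρ * A - C) ≤ avn F' Γ (af ((pmap F)^[k - m] (x 1)))) (hA : 0 ≤ A)
    (hA1 : 2 * C + ρ * B ≤ ρ * A) (hA2 : C + 1 + 4 * |c₀| ≤ ρ * A) :
    (κ / 2) ^ (k₀ * N - 1) * Γ.card ≤ avn F' Γ (af (x N)) := by
  have hΓ0 : (0 : ℝ) < Γ.card := by
    exact_mod_cast hΓ.ne.card_pos
  obtain ⟨J, hJ⟩ : ∃ J : ℕ, J = k₀ * N := ⟨_, rfl⟩
  have hJ1 : 1 ≤ J := by
    rw [hJ]
    exact Nat.one_le_iff_ne_zero.2 (Nat.mul_ne_zero (by omega) (by omega))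
  have hmJ : m * J = k * N := by
    rw [hJ, hk]
    ring
  obtain ⟨W, hW⟩ : ∃ W : ℕ → Fin 5 → Qb, W = fun j => (pmap F)^[k * N - m * j] (x N) := ⟨_, rfl⟩
  have hW1 : ∀ j l, l + j ≤ J → (pmap F)^[m * l] (W (l + j)) = W j := by
    intro j l hjl
    rw [hW]
    simp only
    rw [← Function.iterate_add_apply]
    congr 1
    have h2 : m * (l + j) ≤ k * N := by
      rw [← hmJ]
      exact Nat.mul_le_mul_left m hjl
    rw [Nat.mul_add] at h2 ⊢
    omega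
  have hWL : ∀ j i, W j i ∈ L := fun j i => by
    rw [hW]
    exact orbit_memL F hKF (x N) hxL _ i
  have hWG : ∀ j, G (W j) := fun j => by
    rw [hW]
    exact hG _
  have hW0 : W 0 = x 0 := by
    rw [hW]
    simp only
    have h2 := back_iter hx N 0
    rw [Nat.zero_add] at h2
    rw [Nat.mul_zero, Nat.sub_zero, h2]
  have hWJ : W J = x N := by
    rw [hW]
    simp only
    rw [hmJ, Nat.sub_self]
    rfl
  have hWu : W 1 = (pmap F)^[k - m] (x 1) := by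
    rw [hW]
    simp only
    have h2 := back_iter hx (N - 1) 1
    rw [show 1 + (N - 1) = N by omega] at h2
    rw [← h2, ← Function.iterate_add_apply]
    congr 1
    have h3 : k * N = k * (N - 1) + k := by
      conv_lhs => rw [show N = (N - 1) + 1 by omega]
      ring
    have h4 : m ≤ k := by
      rw [hk]
      exact Nat.le_mul_of_pos_left m hk₀
    rw [Nat.mul_one]
    omega
  obtain ⟨u, hu⟩ : ∃ u : ℕ → ℝ, u = fun j => avn F' Γ (af (W j)) / Γ.card := ⟨_, rfl⟩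
  have hgr := growB u J (κ := κ) (β := β) (ρ := ρ) (c₀ := c₀) (A := A) (B := B)
    (C := C) hκ hβ hβκ hβρ hρ hB
    (by
      intro j hj
      have h2 := hrec (W (j + 2)) (hWL _) (hWG _)
      have h3 := hW1 (j + 1) 1 (by omega)
      have h4 := hW1 j 2 (by omega)
      rw [Nat.mul_one, show 1 + (j + 1) = j + 2 by omega] at h3
      rw [show m * 2 = m + m by ring, show 2 + j = j + 2 by omega] at h4
      rw [h3, h4] at h2
      rw [hu]
      simp only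
      rw [← sub_nonneg] at h2 ⊢
      have h5 : avn F' Γ (af (W (j + 2))) / Γ.card + β * (avn F' Γ (af (W j)) / Γ.card) + c₀ -
          κ * (avn F' Γ (af (W (j + 1))) / Γ.card) = (avn F' Γ (af (W (j + 2))) +
            β * avn F' Γ (af (W j)) + Γ.card * c₀ - κ * avn F' Γ (af (W (j + 1)))) / Γ.card := by
        field_simp
      rw [h5]
      exact div_nonneg h2 hΓ0.le)
    (by
      rw [hu]
      simp only
      rw [hW0, div_le_iff₀ hΓ0]
      linarith)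
    (by
      rw [hu]
      simp only
      rw [hWu, le_div_iff₀ hΓ0]
      linarith)
    hA hA1 hA2 (J - 1) (by omega)
  obtain ⟨-, -, hbig, -⟩ := hgr
  rw [show J - 1 + 1 = J by omega, hu] at hbig
  simp only at hbig
  rw [hWJ, le_div_iff₀ hΓ0, hJ] at hbig
  exact hbig

/-- bounded averaged heights along the backward orbit -/
theorem smallX {F : Tup 5 Qb} {k n N₀ : ℕ} {x : ℕ → Fin 5 → Qb}
    (hx : ∀ j, (pmap F)^[k] (x (j + 1)) = x j) (F₁ : HFam K)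
    {Γ : Finset (Qb ≃ₐ[K] Qb)} {L : IntermediateField K Qb} (hΓ : Gc K Γ L)
    (hKF : ∀ i, ∀ c ∈ (F i).coeffs, c ∈ K) (hxL : ∀ i, x (n * N₀) i ∈ L) {V : Ideal (Po 5 Qb)}
    (hxV : ∀ j, ∀ q ∈ V, eval (x j) q = 0) (hx1 : ∀ j, x j 1 ≠ 0) (hx0 : ∀ i, x 0 i ∈ K)
    {c M : ℝ} (hM : hn F₁ (af (x 0)) ≤ M) (hc : c ≤ M)
    (hV : ∀ y : Fin 5 → Qb, (∀ i, y i ∈ L) → (∀ q ∈ V, eval y q = 0) → y 1 ≠ 0 →
      (pmap (it F k))^[n] y 1 ≠ 0 →
      2 * avn F₁ Γ (af y) ≤ avn F₁ Γ (af ((pmap (it F k))^[n] y)) + Γ.card * c) :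
    avn F₁ Γ (af (x (n * N₀))) ≤ Γ.card * M := by
  have hΓ0 : (0 : ℝ) < Γ.card := by
    exact_mod_cast hΓ.ne.card_pos
  have hXL : ∀ l, l ≤ n * N₀ → ∀ i, x l i ∈ L := by
    intro l hl i
    have h1 := back_iter hx (n * N₀ - l) l
    rw [show l + (n * N₀ - l) = n * N₀ by omega] at h1
    rw [← h1]
    exact orbit_memL F hKF (x (n * N₀)) hxL _ i
  have h1 := bounded_of_rec (fun i => avn F₁ Γ (af (x (n * i))) / Γ.card) N₀ (c := c)
    (M := M) (by
      intro i hi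
      have h2 : n * (i + 1) ≤ n * N₀ := Nat.mul_le_mul_left n (by omega)
      have h3 : (pmap (it F k))^[n] (x (n * (i + 1))) = x (n * i) := by
        rw [pmap_it_iterate, Nat.mul_succ]
        exact back_iter hx n (n * i)
      have h4 := hV (x (n * (i + 1))) (hXL _ h2) (hxV _) (hx1 _) (by
        rw [h3]
        exact hx1 _)
      rw [h3] at h4
      rw [← sub_nonneg] at h4 ⊢
      have h5 : avn F₁ Γ (af (x (n * i))) / Γ.card + c -
          2 * (avn F₁ Γ (af (x (n * (i + 1)))) / Γ.card) = (avn F₁ Γ (af (x (n * i))) +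
            Γ.card * c - 2 * avn F₁ Γ (af (x (n * (i + 1))))) / Γ.card := by
        field_simp
      rw [h5]
      exact div_nonneg h4 hΓ0.le)
    (by
      have h9 : ∀ i, af (x 0) i ∈ K := fun i => div_mem (hx0 i) (hx0 1)
      rw [Nat.mul_zero, avn_mem F₁ Γ h9, mul_div_cancel_left₀ _ hΓ0.ne']
      exact hM) hc N₀ le_rfl
  rw [div_le_iff₀ hΓ0] at h1
  linarith

end orbit

end Pool.Agent.H18.TXB
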