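import Pool.Agent.H18.TXB.Core0
import Pool.Agent.H18.VZ.Facts

/-!
# Backward heights on threefolds: the backward orbit
-/

set_option autoImplicit false

open MvPolynomial
open Pool.Agent.H12.ZD (pmap)
open Pool.Agent.H18.HIT Pool.Agent.H18.HX Pool.Agent.H18.VZ
open Pool.Agent.H8.ZA (HFam Const NA)
open Pool.Agent.H8.TD (lc dg Wsp Cop dh lc_single lc_map lc_iterate ln ln_coeff eval_ln)
open Pool.Agent.H8.TX
open Pool.Agent.H18.TE (lg Gc T_GAL T_FIX T_EQD T_HLN)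
open Pool.Agent.H18.BKH (map_eval map_pmap map_orbit eval_memL orbit_memL Gc.prod_mem growB
  bounded_of_rec exists_large)

namespace Pool.Agent.H18.TXB

theorem hn_ht {K : IntermediateField ℚ Qb} (F : HFam K) (u : Qb) : F.ht ![u, 0, 0] = hn F ![u] := by
  unfold HFam.ht hn
  apply finsum_congr
  intro i
  rw [szn_one, Pool.Agent.H8.ZA.sz]
  congr 1
  change max 1 (max (F.abv i u) (max (F.abv i 0) (F.abv i 0))) = _
  rw [map_zero, max_self, max_eq_left (apply_nonneg _ _)]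

/-- the extension of an automorphism which fixes a set to an automorphism over the field generated
by the set -/
theorem exists_algEquiv (S : Finset Qb) (σ : Qb ≃+* Qb) (h : ∀ a ∈ S, σ a = a) :
    ∃ τ : Qb ≃ₐ[IntermediateField.adjoin ℚ (S : Set Qb)] Qb, ∀ a, τ a = σ a := by
  have h1 := fix_adjoin (S : Set Qb) σ fun a ha => h a (Finset.mem_coe.mp ha)
  exact ⟨AlgEquiv.ofRingEquiv (f := σ) fun r => h1 r.1 r.2, fun a => rfl⟩

/-- division of the equation by the denominator -/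
theorem root_div {E : ℕ} (c : Fin (E + 1) → Qb) {p q : Qb} (hq : q ≠ 0)
    (h : ∑ j : Fin (E + 1), c j * (p ^ (E - (j : ℕ)) * q ^ (j : ℕ)) = 0) :
    ∑ j : Fin (E + 1), c j * (p / q) ^ (E - (j : ℕ)) = 0 := by
  have h1 : q ^ E * ∑ j : Fin (E + 1), c j * (p / q) ^ (E - (j : ℕ)) = 0 := by
    rw [← h, Finset.mul_sum]
    refine Finset.sum_congr rfl fun j _ => ?_
    have h2 : q ^ E = q ^ (E - (j : ℕ)) * q ^ (j : ℕ) := by
      rw [← pow_add]
      congr 1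
      have := j.2
      omega
    rw [h2, div_pow]
    have h3 : q ^ (E - (j : ℕ)) ≠ 0 := pow_ne_zero _ hq
    field_simp
  exact (mul_eq_zero.mp h1).resolve_left (pow_ne_zero _ hq)

theorem fracX (ρ A cA cs G : ℝ) {E : ℝ} (hE : 0 < E) :
    G * (ρ * A - (cA / E + cs)) * E = G * (E * ρ * A - cA) - E * (G * cs) := by
  field_simp
  ring

/-- the backward orbit of a point over a line -/
theorem pointB (hFIX : T_FIX) (hEQD : T_EQD) (hHLN : T_HLN) (hHTX : T_HTX) (hLFG : T_LFG)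
    {r d m k k₀ l E E₁ Y' : ℕ} {P b b₁ θ : Po 5 Qb} {F : Tup 5 Qb} (hP : Hyp P r)
    (hF : ∀ i, (F i).IsHomogeneous d) (hsl : Slf (Ideal.span {P}) F)
    {κ β ρ : ℝ} {T : Finset (Po 5 Qb)} (hβ : 0 ≤ β) (hκ : 2 < κ) (hβκ : 8 * β ≤ κ ^ 2)
    (hβρ : 8 * β ≤ κ * ρ) (hρ : 0 < ρ) (hb₁ : b₁ = ∏ p ∈ T, hmg p)
    (hrec : ∀ (K' : IntermediateField ℚ Qb) (F' : HFam K'), ∃ c₀ : ℝ,
        ∀ (μ : ℕ) (z : Fin μ → Fin 5 → Qb), (∀ j, eval (z j) P = 0) → (∀ j, z j 1 = 1) →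
          (∀ j, ∀ p ∈ T, eval (z j) p ≠ 0) → (∀ p ∈ T, ∏ j, eval (z j) p ∈ K') →
          κ * ∑ j, hn F' (af (pmap (it F m) (z j))) ≤ ∑ j, hn F' (z j) +
            β * ∑ j, hn F' (af (pmap (it F (m + m)) (z j))) + μ * c₀)
    {s : Fin 5 → Qb} {Cf : Fin (E₁ + 1) → Po 4 Qb} (hE₁ : 1 ≤ E₁)
    (hCf : ∀ j, (Cf j).IsHomogeneous Y') (hcop : Cop Cf) (hC0 : Cf 0 ≠ 0)
    (hirr : Irreducible (∑ j : Fin (E₁ + 1), Polynomial.C (Cf j) *
      Polynomial.X ^ (E₁ - (j : ℕ)))) (hρY : E₁ * ρ ≤ Y') (hk : k = k₀ * m) (hk₀ : 1 ≤ k₀)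
    (hlk : k = m + l)
    (hrel : P ∣ ∑ j : Fin (E₁ + 1), aeval (fun i : Fin 4 => it F k i.succ) (Cf j) *
      (sF F l s ^ (E₁ - (j : ℕ)) * it F l 1 ^ (j : ℕ)))
    {α : Fin 4 → Qb} {ϖ : Qb} (hϖ : ϖ ≠ 0) {g : Po 4 Qb} (hg : g ≠ 0)
    (hcol : ∀ g : Po 4 Qb, g ≠ 0 →
      ∃ y : Fin 4 → ℤ, eval (fun i => α i + ϖ * (y i : Qb)) g ≠ 0 ∧
      ∀ c' : Po 4 Qb, c' ≠ 0 → ∃ b' : Fin 4 → ℤ, eval (cZ b') c' ≠ 0 ∧
      ∀ (s : Finset Qb) (M₀ : ℕ), ∃ (t : ℤ) (x : ℕ → Fin 5 → Qb), (M₀ : ℤ) < |t| ∧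
        (∀ i : Fin 4, x 0 i.succ = α i + ϖ * ((y i + t * b' i : ℤ) : Qb)) ∧
        (∀ j, eval (x j) P = 0) ∧ (∀ j, (pmap F)^[k] (x (j + 1)) = x j) ∧
        (∀ j n : ℕ, eval ((pmap F)^[n] (x j)) (b * X 1 * b₁) ≠ 0) ∧ eval (x 0) (up g) ≠ 0 ∧
        (van (it F k) (x 0)).IsPrime ∧ Tot P (it F k) E θ (van (it F k) (x 0)) ∧
        (∀ j, ∀ q ∈ van (it F k) (x 0), eval (x j) q = 0) ∧
        ∀ x' : Fin 5 → Qb, eval x' P = 0 →
          (∀ i : Fin 4, (pmap F)^[k] x' i.succ = x 0 i.succ) →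
          ∃ σ : Qb ≃+* Qb, (∀ a ∈ s, σ a = a) ∧ (∀ i, σ (x 0 i) = (pmap F)^[k] x' i) ∧
            ∀ i, σ (x 1 i) = x' i) :
    ∃ (x : ℕ → Fin 5 → Qb) (K₀ : IntermediateField ℚ Qb) (F' : HFam K₀),
      FiniteDimensional ℚ K₀ ∧ (∀ i, ∀ c ∈ (F i).coeffs, c ∈ K₀) ∧
      (∀ i, ∀ c ∈ (it F k i).coeffs, c ∈ K₀) ∧ (∀ i : Fin 4, x 0 i.succ ∈ K₀) ∧
      (∀ j, eval (x j) P = 0) ∧ (∀ j, (pmap F)^[k] (x (j + 1)) = x j) ∧
      (∀ j n : ℕ, eval ((pmap F)^[n] (x j)) b ≠ 0) ∧ (∀ j n : ℕ, (pmap F)^[n] (x j) 1 ≠ 0) ∧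
      eval (x 0) (up g) ≠ 0 ∧ (van (it F k) (x 0)).IsPrime ∧
      Tot P (it F k) E θ (van (it F k) (x 0)) ∧
      (∀ j, ∀ q ∈ van (it F k) (x 0), eval (x j) q = 0) ∧
      ∀ (N : ℕ) (Γ : Finset (Qb ≃ₐ[K₀] Qb)) (L : IntermediateField K₀ Qb), 1 ≤ N → Gc K₀ Γ L →
        (∀ i, x N i ∈ L) → (κ / 2) ^ (k₀ * N - 1) * Γ.card ≤ avn F' Γ (af (x N)) := by
  classical
  have hprime : (Ideal.span {P} : Ideal (Po 5 Qb)).IsPrime := isPrime_span hP.irr
  have hX1 : ¬ P ∣ (X 1 : Po 5 Qb) := not_dvd_X1 hP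
  obtain ⟨hal1, hal2⟩ := Pool.Agent.H18.HX.All.alx 4 Qb P (it F k) hP.irr hP.mon (hsl.it k)
  obtain ⟨c₁, hc₁, hlift⟩ := hLFG 5 4 E₁ Qb (Ideal.span {P}) (fun j => it F k j.succ) (sF F l s)
    (it F l 1) 1 Cf (fun q hq => hal1 q (Ideal.mem_span_singleton.1 hq))
    (fun i => by
      obtain ⟨Q, hQ, h1⟩ := hal2 i
      exact ⟨Q, hQ, Ideal.mem_span_singleton.2 h1⟩)
    (fun h => by
      have h1 : aeval (it F l) (X 1 : Po 5 Qb) ∈ (Ideal.span {P} : Ideal (Po 5 Qb)) := by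
        rw [aeval_X]
        exact h
      exact hX1 (Ideal.mem_span_singleton.1 ((hsl.it l).inj _ h1)))
    (fun h => hprime.ne_top ((Ideal.eq_top_iff_one _).2 h)) hC0 hirr
    (Ideal.mem_span_singleton.2 hrel)
  obtain ⟨y, hy, hyb⟩ := hcol (g * (c₁ * (Cf 0 * X 0))) (mul_ne_zero hg (mul_ne_zero hc₁
    (mul_ne_zero hC0 (X_ne_zero 0))))
  obtain ⟨w, hw⟩ : ∃ w : Fin 4 → Qb, w = fun i => α i + ϖ * (y i : Qb) := ⟨_, rfl⟩
  rw [← hw, map_mul, map_mul, map_mul, eval_X] at hy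
  have hwC := left_ne_zero_of_mul (right_ne_zero_of_mul (right_ne_zero_of_mul hy))
  have hw0 := right_ne_zero_of_mul (right_ne_zero_of_mul (right_ne_zero_of_mul hy))
  obtain ⟨cc, hcc, hdir⟩ := dirB hCf hcop hw0 hwC
  obtain ⟨b', hb', hbt⟩ := hyb cc hcc
  obtain ⟨v, hv⟩ : ∃ v : Fin 4 → Qb, v = fun i => ϖ * cZ b' i := ⟨_, rfl⟩
  obtain ⟨hv1, hv2, hv3, hv4⟩ := hdir (cZ b') hb' ϖ hϖ
  have hvi : ∀ i, v i = ϖ * cZ b' i := fun i => congrFun hv i
  -- the number field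
  obtain ⟨S, hS⟩ : ∃ S : Finset Qb, S = P.coeffs ∪ ((Finset.univ.biUnion fun i => (F i).coeffs) ∪
    ((T.biUnion fun p => p.coeffs) ∪ ((Finset.univ.biUnion fun j => (Cf j).coeffs) ∪
      (Finset.univ.image w ∪ (Finset.univ.image v ∪ (Finset.univ.image s ∪
        ((Finset.univ.biUnion fun i => (it F k i).coeffs) ∪ (ln w v (Cf 0)).coeffs))))))) :=
    ⟨_, rfl⟩
  obtain ⟨K₀, hK₀⟩ : ∃ K₀, K₀ = IntermediateField.adjoin ℚ (S : Set Qb) := ⟨_, rfl⟩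
  have hSK : ∀ c ∈ S, c ∈ K₀ := fun c hc => by
    rw [hK₀]
    exact IntermediateField.subset_adjoin ℚ _ hc
  have hKfin : FiniteDimensional ℚ K₀ := by
    rw [hK₀]
    exact IntermediateField.finiteDimensional_adjoin fun x _ =>
      (Algebra.IsAlgebraic.isAlgebraic (R := ℚ) x).isIntegral
  have hgal' : ∀ σ : Qb ≃+* Qb, (∀ a ∈ S, σ a = a) → ∃ τ : Qb ≃ₐ[K₀] Qb, ∀ a, τ a = σ a := by
    intro σ hσ
    rw [hK₀]
    exact exists_algEquiv S σ hσ
  simp only [hS, Finset.mem_union] at hSK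
  have hKP : ∀ c ∈ P.coeffs, c ∈ K₀ := fun c hc => hSK c (Or.inl hc)
  have hKF : ∀ i, ∀ c ∈ (F i).coeffs, c ∈ K₀ := fun i c hc => hSK c (Or.inr (Or.inl
      (Finset.mem_biUnion.2 ⟨i, Finset.mem_univ i, hc⟩)))
  have hKT : ∀ p ∈ T, ∀ c ∈ p.coeffs, c ∈ K₀ := fun p hp c hc => hSK c (Or.inr (Or.inr (Or.inl
      (Finset.mem_biUnion.2 ⟨p, hp, hc⟩))))
  have hKC : ∀ j, ∀ c ∈ (Cf j).coeffs, c ∈ K₀ := fun j c hc => hSK c (Or.inr (Or.inr (Or.inr
    (Or.inl (Finset.mem_biUnion.2 ⟨j, Finset.mem_univ j, hc⟩)))))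
  have hKw : ∀ i, w i ∈ K₀ := fun i => hSK _ (Or.inr (Or.inr (Or.inr (Or.inr (Or.inl
        (Finset.mem_image_of_mem _ (Finset.mem_univ i)))))))
  have hKv : ∀ i, v i ∈ K₀ := fun i => hSK _ (Or.inr (Or.inr (Or.inr (Or.inr (Or.inr (Or.inl
        (Finset.mem_image_of_mem _ (Finset.mem_univ i))))))))
  have hKs : ∀ i, s i ∈ K₀ := fun i => hSK _ (Or.inr (Or.inr (Or.inr (Or.inr (Or.inr (Or.inr
    (Or.inl (Finset.mem_image_of_mem _ (Finset.mem_univ i)))))))))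
  have hKI : ∀ i, ∀ c ∈ (it F k i).coeffs, c ∈ K₀ := fun i c hc => hSK c (Or.inr (Or.inr (Or.inr
    (Or.inr (Or.inr (Or.inr (Or.inr (Or.inl
      (Finset.mem_biUnion.2 ⟨i, Finset.mem_univ i, hc⟩)))))))))
  have hKL : ∀ j, (ln w v (Cf 0)).coeff j ∈ K₀ := Pool.Agent.H8.TD.coeff_mem _ fun c hc =>
    hSK c (Or.inr (Or.inr (Or.inr (Or.inr (Or.inr (Or.inr (Or.inr (Or.inr hc))))))))
  have hKl : ∀ (t : ℤ) (i : Fin 4), w i + (t : Qb) * v i ∈ K₀ := fun t i =>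
    add_mem (hKw i) (mul_mem (intCast_mem K₀ t) (hKv i))
  obtain ⟨F'⟩ := Pool.Agent.H8.ZA.F.PFX K₀ hKfin
  obtain ⟨c₀, hc₀⟩ := hrec K₀ F'
  obtain ⟨cs, hcs⟩ := hn_lc F' s
  obtain ⟨cA, hcA⟩ := hHLN E₁ Y' (fun j => ln w v (Cf j)) (fun j => (ln_coeff (hCf j) w v).1)
    ⟨0, by
      rw [(ln_coeff (hCf 0) w v).2, hv]
      exact hv3⟩
    (by
      intro t
      obtain ⟨j, hj⟩ := hv4 t
      refine ⟨j, ?_⟩
      rw [eval_ln, hv]
      exact hj)
    (by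
      intro h0
      apply hv3
      rw [← hv, ← (ln_coeff (hCf 0) w v).2, h0, Polynomial.coeff_zero]) K₀ F' hKL
  obtain ⟨cB, hcB⟩ := hHTX P r w v hP (by rw [hv]; exact hv1) (by rw [hv]; exact hv2) K₀ F'
    fun t => hKl t 0
  obtain ⟨A₀, hA₀⟩ := exists_large (ρ := ρ) (B := |cB|) (C := cA / E₁ + cs) (c₀ := c₀) hρ
  obtain ⟨Mb, hMb⟩ := exists_nat_gt (Real.exp (max A₀ 0))
  obtain ⟨t, x, htM, hxe, hxP, hxk, hxb, hxg, hVp, hVt, hxV, hgal⟩ := hbt S Mb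
  have hxt : tl (x 0) = fun i => w i + (t : Qb) * v i := by
    funext i
    rw [tl, hxe, hw, hvi, cZ]
    push_cast
    ring
  have hxt' : ∀ i : Fin 4, x 0 i.succ = w i + (t : Qb) * v i := fun i => congrFun hxt i
  have hup : ∀ q : Po 4 Qb, eval (x 0) (up q) = eval (tl (x 0)) q := fun q => by
    rw [up, eval_rename]
    rfl
  rw [hup, map_mul, map_mul, map_mul, eval_X] at hxg
  have hxg' := left_ne_zero_of_mul hxg
  have hxc := left_ne_zero_of_mul (right_ne_zero_of_mul hxg)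
  have hxC := left_ne_zero_of_mul (right_ne_zero_of_mul (right_ne_zero_of_mul hxg))
  have hx0 := right_ne_zero_of_mul (right_ne_zero_of_mul (right_ne_zero_of_mul hxg))
  have hzer : ∀ j n, eval ((pmap F)^[n] (x j)) P = 0 := fun j n =>
    zer_iterate hsl.inv (zer_span.mpr (hxP j)) n P (Ideal.mem_span_singleton_self P)
  have hav : ∀ j n, eval ((pmap F)^[n] (x j)) b ≠ 0 ∧ (pmap F)^[n] (x j) 1 ≠ 0 ∧
      ∀ p ∈ T, eval (af ((pmap F)^[n] (x j))) p ≠ 0 := by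
    intro j n
    have h1 := hxb j n
    rw [map_mul, map_mul, eval_X, hb₁, map_prod] at h1
    have h2 := right_ne_zero_of_mul (left_ne_zero_of_mul h1)
    refine ⟨left_ne_zero_of_mul (left_ne_zero_of_mul h1), h2, fun p hp => ?_⟩
    have h3 := Finset.prod_ne_zero_iff.1 (right_ne_zero_of_mul h1) p hp
    rw [eval_hmg p h2] at h3
    exact right_ne_zero_of_mul h3
  have ht0 : t ≠ 0 := by
    rintro rfl
    rw [abs_zero] at htM
    exact absurd htM (by have := Int.natCast_nonneg Mb; omega)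
  obtain ⟨A, hA⟩ : ∃ A : ℝ, A = F'.arch.card * Real.log |(t : ℝ)| := ⟨_, rfl⟩
  have hlog : max A₀ 0 ≤ Real.log |(t : ℝ)| := by
    have h2 : (Mb : ℝ) < |(t : ℝ)| := by exact_mod_cast htM
    rw [Real.le_log_iff_exp_le ((Nat.cast_nonneg Mb).trans_lt h2)]
    exact (hMb.trans h2).le
  have hAA : A₀ ≤ A := by
    have h3 : (1 : ℝ) ≤ F'.arch.card := by
      exact_mod_cast F'.arch_nonempty.card_pos
    have h4 : 0 ≤ Real.log |(t : ℝ)| := (le_max_right _ _).trans hlog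
    have h5 : 1 * Real.log |(t : ℝ)| ≤ A := by
      rw [hA]
      exact mul_le_mul_of_nonneg_right h3 h4
    have h6 := (le_max_left A₀ 0).trans hlog
    linarith
  obtain ⟨hA0, hA1, hA2⟩ := hA₀ A hAA
  refine ⟨x, K₀, F', hKfin, hKF, hKI, fun i => ?_, hxP, hxk, fun j n => (hav j n).1,
    fun j n => (hav j n).2.1, ?_, hVp, hVt, hxV, fun N Γ L hN hΓ hxL => ?_⟩
  · rw [hxt']
    exact hKl t i
  · rw [hup]
    exact hxg'
  have hΓ0 : (0 : ℝ) < Γ.card := by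
    exact_mod_cast hΓ.ne.card_pos
  have hE0 : (0 : ℝ) < E₁ := by exact_mod_cast hE₁
  have hkl : k - m = l := by omega
  apply growX hk hk₀ hN hxk F' hΓ hKF hxL
    (fun y => eval y P = 0 ∧ y 1 ≠ 0 ∧ ∀ p ∈ T, eval (af y) p ≠ 0)
    (fun n => ⟨hzer N n, (hav N n).2⟩)
    (fun y hyL hyG => recAv hFIX hP hF F' hc₀ hΓ hKF hKT hKP hyL hyG.1 hyG.2.1 hyG.2.2)
    hκ hβ hβκ hβρ hρ (abs_nonneg cB) _ _ hA0 hA1 hA2
  · -- the heights of the conjugates of the point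
    unfold avn
    rw [← nsmul_eq_mul, ← Finset.sum_const]
    apply Finset.sum_le_sum
    intro σ _
    rw [map_af]
    have h1 : (fun i => σ (x 0 i)) = (Fin.cons (σ (x 0 0)) (fun i => w i + (t : Qb) * v i) :
        Fin 5 → Qb) := by
      funext i
      refine Fin.cases rfl (fun i' => ?_) i
      rw [Fin.cons_succ, hxt']
      exact σ.commutes ⟨_, hKl t i'⟩
    have h2 := hcB t (σ (x 0 0)) ht0 (by
      rw [← hxt' 0]
      exact hx0) (by
      rw [← h1, ← map_eval σ P hKP, hxP, map_zero])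
    rw [← h1, ← hA] at h2
    have h3 := (abs_le.mp h2).2
    have h4 := le_abs_self cB
    linarith
  · -- the first step
    rw [hkl]
    obtain ⟨u, hu⟩ : ∃ u : Fin 5 → Qb, u = (pmap F)^[l] (x 1) := ⟨_, rfl⟩
    have hq0 : ∀ z : Fin 5 → Qb, (pmap F)^[l] z 1 = eval z (it F l 1) := fun z => by
      rw [← pmap_it]
      rfl
    have hlcz : ∀ z : Fin 5 → Qb, lc s (af ((pmap F)^[l] z)) =
        eval z (sF F l s) / eval z (it F l 1) := by
      intro z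
      rw [← pmap_it, sF, map_sum, lc, Finset.sum_div]
      refine Finset.sum_congr rfl fun i _ => ?_
      rw [smul_eq_mul, map_mul, eval_C, mul_div_assoc]
      rfl
    have huL : ∀ i, u i ∈ L := by
      have h1 := back_iter hxk (N - 1) 1
      rw [show 1 + (N - 1) = N by omega] at h1
      intro i
      rw [hu, ← h1, ← Function.iterate_add_apply]
      exact orbit_memL F hKF (x N) hxL _ i
    have hfirst : (Γ.card : ℝ) * (Y' * A - cA) ≤ E₁ * (avn F' Γ (af u) + Γ.card * cs) := by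
      apply root_avX hEQD F' hΓ hE₁ (fun j => eval (tl (x 0)) (Cf j)) hxC
        (fun j => Pool.Agent.H8.TD.eval_mem (Cf j) _ (hKC j) fun i => by
          rw [tl, hxt']
          exact hKl t i) s hKs u huL
      · rw [hu, hlcz]
        apply root_div _ (by
          rw [← hq0]
          exact (hav 1 l).2.1)
        obtain ⟨Q, hQ⟩ := hrel
        have h1 := congrArg (eval (x 1)) hQ
        rw [map_mul, hxP, zero_mul, map_sum] at h1
        rw [← h1]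
        refine Finset.sum_congr rfl fun j _ => ?_
        rw [map_mul, map_mul, map_pow, map_pow]
        congr 1
        rw [eval_aeval_gen]
        congr 1
        congr 1
        funext i
        rw [tl, ← hxk 0, ← pmap_it]
        rfl
      · intro ζ hζ
        obtain ⟨x', hx'1, hx'2, hx'3, hx'4, -⟩ := hlift (tl (x 0)) hxc ζ hζ
        obtain ⟨σ, hσ1, -, hσ3⟩ := hgal x' (zer_span.mp hx'1) (fun i => by
          rw [← pmap_it]
          exact hx'2 i)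
        obtain ⟨τ, hτ⟩ := hgal' σ hσ1
        refine ⟨τ, ?_⟩
        have h1 : τ (lc s (af u)) = lc s (fun i => τ (af u i)) := by
          unfold lc
          rw [map_sum]
          apply Finset.sum_congr rfl
          intro i _
          rw [smul_eq_mul, smul_eq_mul, map_mul]
          have h9 : τ (s i) = s i := τ.commutes ⟨s i, hKs i⟩
          rw [h9]
        have h2 : (fun i => τ (x 1 i)) = x' := by
          funext i
          rw [hτ, hσ3]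
        rw [h1, map_af, hu, map_orbit τ F hKF, h2, hlcz, hx'4, mul_div_cancel_right₀ _ hx'3]
      · intro Sm hSm
        have h1 := hcA t ht0 (by
          rw [eval_ln, ← hxt]
          exact hxC) Sm (by
          simp only [eval_ln]
          rw [← hxt]
          exact hSm)
        simp only [hn_ht] at h1
        rw [← hA] at h1
        exact h1
      · exact hcs
    have h1 : (Γ.card : ℝ) * (E₁ * ρ * A - cA) ≤ Γ.card * (Y' * A - cA) := by
      apply mul_le_mul_of_nonneg_left _ hΓ0.le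
      have h2 := mul_le_mul_of_nonneg_right hρY hA0
      linarith
    have h2 := h1.trans hfirst
    rw [← hu]
    have h3 : (Γ.card * (ρ * A - (cA / E₁ + cs))) * E₁ =
        Γ.card * (E₁ * ρ * A - cA) - E₁ * (Γ.card * cs) := fracX _ _ _ _ _ hE0
    have h4 : (Γ.card * (ρ * A - (cA / E₁ + cs))) * E₁ ≤ avn F' Γ (af u) * E₁ := by
      rw [h3]
      linarith
    exact le_of_mul_le_mul_right h4 hE0

end Pool.Agent.H18.TXB
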