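import Pool.Agent.H8.TX.Targets
import Pool.Agent.H18.TE.Targets
import Pool.Agent.H18.VP.AsmX

/-!
# Zariski dense orbits on threefolds by backward heights: the targets

The notation is that of `Pool.Agent.H8.TX`: `P` is irreducible, homogeneous and monic in `X 0`,
affine coordinates are the quotients by `X 1`, `tl` is the projection to the last four coordinates.
-/

open MvPolynomial
open Pool.Agent.H12.ZD (pmap)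
open Pool.Agent.H18.HIT Pool.Agent.H18.HX Pool.Agent.H18.VZ
open Pool.Agent.H8.ZA (HFam Const NA)
open Pool.Agent.H8.TD (lc dg Cop)
open Pool.Agent.H8.TX
open Pool.Agent.H18.TE (lg Gc)

namespace Pool.Agent.H18.TXB

/-- the sum of the heights of the conjugates of a point of affine space -/
noncomputable def avn {K : IntermediateField ℚ Qb} (F : HFam K) (Γ : Finset (Qb ≃ₐ[K] Qb)) {n : ℕ}
    (y : Fin n → Qb) : ℝ := ∑ σ ∈ Γ, hn F fun i => σ (y i)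

/-! ## A. Numbers -/

/-- the growth conditions for the backward heights are satisfied at some scale -/
def T_GRB : Prop := ∀ (a Y : ℕ → ℕ) (e R Λ : ℕ) (c : ℝ), (∀ n, 1 ≤ a n) → 1 ≤ R →
  (∀ m n, a (m + n) ≤ R * (a m * a n)) → (∀ m n, Y (m + n) ≤ a n ^ 2 * Y m) → 1 ≤ e →
  (e : ℝ) < c → (∀ N, ∃ n ≥ N, c ^ n ≤ R * (Y n : ℝ)) →
  (∀ c' : ℝ, (e : ℝ) < c' → ∃ N, ∀ n ≥ N, (a n : ℝ) < c' ^ n) →
  ∃ m ≥ 1, Λ * (e ^ m * Y m) < Y (m + m) ∧ Λ * (e ^ m * a m) * Y m ^ 2 ≤ Y (m + m) ^ 2 ∧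
    Λ * (e ^ m * a m) ≤ Y (m + m)

/-! ## B. Change of the base field of the averages -/

/-- averages over a larger field -/
def T_CNV : Prop := ∀ (K₀ K₁ : IntermediateField ℚ Qb) (F : HFam K₀), K₀ ≤ K₁ →
  FiniteDimensional ℚ K₁ → ∃ (F₁ : HFam K₁) (r : ℕ), 1 ≤ r ∧
    ∀ (n : ℕ) (y : Fin n → Qb) (Γ₀ : Finset (Qb ≃ₐ[K₀] Qb)) (L₀ : IntermediateField K₀ Qb)
      (Γ₁ : Finset (Qb ≃ₐ[K₁] Qb)) (L₁ : IntermediateField K₁ Qb), Gc K₀ Γ₀ L₀ →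
      Gc K₁ Γ₁ L₁ → (∀ i, y i ∈ L₀) → (∀ i, y i ∈ L₁) →
      (Γ₀.card : ℝ) * avn F₁ Γ₁ y = r * (Γ₁.card * avn F Γ₀ y)

/-! ## C. Equations -/

/-- the minimal equation of a function over the functions of `μ`, with forms as coefficients -/
def T_CHY : Prop := ∀ (k K : Type) [Field k] [Infinite k] [Field K] [Algebra k K] (μ : Fin 3 → K)
  (z : K), Algebra.trdeg k K = 3 →
  Algebra.IsAlgebraic (IntermediateField.adjoin k (Set.range μ)) K →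
  ∃ (E Y : ℕ) (Cf : Fin (E + 1) → Po 4 k), 1 ≤ E ∧ (∀ j, (Cf j).IsHomogeneous Y) ∧ Cop Cf ∧
    Cf 0 ≠ 0 ∧
    Irreducible (∑ j : Fin (E + 1), Polynomial.C (Cf j) * Polynomial.X ^ (E - (j : ℕ))) ∧
    ∑ j : Fin (E + 1), aeval (Fin.cons 1 μ : Fin 4 → K) (Cf j) * z ^ (E - (j : ℕ)) = 0 ∧
    ∀ s' s'' : Fin 3 → k, dg k {z, lc s' μ, lc s'' μ} * E ≤ Y * dg k (Set.range μ)

/-- every root of the irreducible equation of the function `p / q` over the functions of `g` is a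
value of `p / q` at a point of the fibre -/
def T_LFG : Prop := ∀ (L N n : ℕ) (k : Type) [Field k] [IsAlgClosed k] [CharZero k]
  (I : Ideal (Po L k)) [I.IsPrime] (g : Fin N → Po L k) (p q b : Po L k)
  (Cf : Fin (n + 1) → Po N k), (∀ c : Po N k, aeval g c ∈ I → c = 0) →
  (∀ i, ∃ Q : Polynomial (Po N k), Q ≠ 0 ∧ evg g (X i) Q ∈ I) → q ∉ I → b ∉ I → Cf 0 ≠ 0 →
  Irreducible (∑ j : Fin (n + 1), Polynomial.C (Cf j) * Polynomial.X ^ (n - (j : ℕ))) →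
  ∑ j : Fin (n + 1), aeval g (Cf j) * (p ^ (n - (j : ℕ)) * q ^ (j : ℕ)) ∈ I →
  ∃ c : Po N k, c ≠ 0 ∧ ∀ y : Fin N → k, eval y c ≠ 0 → ∀ s : k,
    ∑ j : Fin (n + 1), eval y (Cf j) * s ^ (n - (j : ℕ)) = 0 →
    ∃ x : Fin L → k, Zer I x ∧ (∀ j, eval x (g j) = y j) ∧ eval x q ≠ 0 ∧
      eval x p = s * eval x q ∧ eval x b ≠ 0

/-- self-maps of small degree have at most one preimage up to scaling -/
def T_PCX : Prop := ∀ (N r D E : ℕ) (k : Type) [Field k] [IsAlgClosed k] [CharZero k]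
  (P θ Δ : Po (N + 1) k) (T : Tup (N + 1) k), 1 ≤ N → 1 ≤ D → Hyp P r →
  (∀ i, (T i).IsHomogeneous D) → Slf (Ideal.span {P}) T → Bas P T E θ Δ → E < 2 * D →
  Upv (Ideal.span {P}) T 1

/-! ## D. The backward branch -/

/-- maps which are the identity modulo `p` are onto -/
def T_PRY (k : Type) [Field k] : Prop := ∀ (N : ℕ) (p : Pool.Agent.H18.VP.Pl k)
  (H : Tup N (Pool.Agent.H18.VP.O p)) (z : Fin N → Pool.Agent.H18.VP.O p),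
  ∃ x : Fin N → Pool.Agent.H18.VP.O p, pmap (Pool.Agent.H18.VP.fl p H) x = z

/-- the integral preimage is in the closure of the orbit -/
def T_PRW (k : Type) [Field k] : Prop := ∀ (N : ℕ) (p : Pool.Agent.H18.VP.Pl k)
  (H : Tup N (Pool.Agent.H18.VP.O p)) (z x : Fin N → Pool.Agent.H18.VP.O p), 3 ≤ (p : ℕ) →
  pmap (Pool.Agent.H18.VP.fl p H) x = z →
  ∀ c ∈ van (Pool.Agent.H18.VP.flQ p H) (Pool.Agent.H18.VP.cO z),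
    eval (Pool.Agent.H18.VP.cO x) c = 0

/-- backward orbits which start over a line, in a totally invariant orbit closure -/
def T_COB : Prop := ∀ (N r d m : ℕ) (P b : Po (N + 1) Qb) (F : Tup (N + 1) Qb), 1 ≤ N → 1 ≤ m →
  Hyp P r → r ≤ d → (∀ i, (F i).IsHomogeneous d) → Slf (Ideal.span {P}) F →
  (∃ l, b.IsHomogeneous l) → ¬ P ∣ b →
  ∃ (k : ℕ) (α : Fin N → Qb) (ϖ : Qb), 1 ≤ k ∧ m ∣ k ∧ ϖ ≠ 0 ∧
  ∀ (E : ℕ) (θ Δ : Po (N + 1) Qb), Bas P (it F k) E θ Δ → Cvi (Ideal.span {P}) (it F k) E →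
  ∀ g : Po N Qb, g ≠ 0 →
  ∃ y : Fin N → ℤ, eval (fun i => α i + ϖ * (y i : Qb)) g ≠ 0 ∧
  ∀ c' : Po N Qb, c' ≠ 0 → ∃ b' : Fin N → ℤ, eval (cZ b') c' ≠ 0 ∧
  ∀ (s : Finset Qb) (M₀ : ℕ), ∃ (t : ℤ) (x : ℕ → Fin (N + 1) → Qb), (M₀ : ℤ) < |t| ∧
    (∀ i : Fin N, x 0 i.succ = α i + ϖ * ((y i + t * b' i : ℤ) : Qb)) ∧
    (∀ j, eval (x j) P = 0) ∧ (∀ j, (pmap F)^[k] (x (j + 1)) = x j) ∧
    (∀ j n : ℕ, eval ((pmap F)^[n] (x j)) b ≠ 0) ∧ eval (x 0) (up g) ≠ 0 ∧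
    (van (it F k) (x 0)).IsPrime ∧ Tot P (it F k) E θ (van (it F k) (x 0)) ∧
    (∀ j, ∀ q ∈ van (it F k) (x 0), eval (x j) q = 0) ∧
    ∀ x' : Fin (N + 1) → Qb, eval x' P = 0 →
      (∀ i : Fin N, (pmap F)^[k] x' i.succ = x 0 i.succ) →
      ∃ σ : Qb ≃+* Qb, (∀ a ∈ s, σ a = a) ∧ (∀ i, σ (x 0 i) = (pmap F)^[k] x' i) ∧
        ∀ i, σ (x 1 i) = x' i

/-! ## E. Backward heights on a curve -/

/-- a hypersurface meets a curve in finitely many points -/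
def T_BDY : Prop := ∀ (I : Ideal (Po 5 Qb)) (P p : Po 5 Qb) (S S' : Po 4 Qb) (D : ℕ),
  I.IsPrime → Hmi I → X 1 ∉ I → Mny P → P ∈ I → p.IsHomogeneous D → p ∉ I → up S ∈ I →
  up S' ∈ I → S ≠ 0 → S' ≠ 0 → IsRelPrime S S' →
  {w : Fin 5 → Qb | ∃ y : Fin 5 → Qb, (∀ q ∈ I, eval y q = 0) ∧ y 1 ≠ 0 ∧ eval y p = 0 ∧
    w = af y}.Finite

/-- growth of the heights on a totally invariant curve, local form -/
def T_LLY : Prop := ∀ (P θ Δ : Po 5 Qb) (I : Ideal (Po 5 Qb)) (T : Tup 5 Qb) (D E : ℕ)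
  (S S' : Po 4 Qb), I.IsPrime → 1 ≤ D → (∀ i, (T i).IsHomogeneous D) → Hmi I → X 1 ∉ I →
  Mny P → P ∈ I → (∀ q, aeval T q ∈ I ↔ q ∈ I) → Bas P T E θ Δ → Δ ∉ I → 2 * D ≤ E →
  (∀ c : Fin E → Po 5 Qb, (∑ i : Fin E, θ ^ (i : ℕ) * aeval T (c i)) ∈ I → ∀ i, c i ∈ I) →
  up S ∈ I → up S' ∈ I → S ≠ 0 → S' ≠ 0 → IsRelPrime S S' →
  ∃ (n : ℕ) (p : Fin 5 → Po 5 Qb) (D' m' : Fin 5 → ℕ) (μ : Fin 5 → ℝ), 1 ≤ n ∧
    (∀ i, (p i).IsHomogeneous (D' i)) ∧ (∀ i, p i ∉ I) ∧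
    ∀ (K : IntermediateField ℚ Qb) (F : HFam K), ∃ c : ℝ, ∀ y : Fin 5 → Qb,
      (∀ q ∈ I, eval y q = 0) → y 1 ≠ 0 → (pmap T)^[n] y 1 ≠ 0 → (∀ i, eval y (p i) ≠ 0) →
      4 * hn F (af y) + ∑ i, μ i * (lg F (eval y (p i)) -
        m' i * lg F (y 1 * (pmap T)^[n] y 1)) ≤ hn F (af ((pmap T)^[n] y)) + c

/-- growth of the heights on a totally invariant curve -/
def T_LGY : Prop := ∀ (P θ Δ : Po 5 Qb) (I : Ideal (Po 5 Qb)) (T : Tup 5 Qb) (D E : ℕ)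
  (S S' : Po 4 Qb), I.IsPrime → 1 ≤ D → (∀ i, (T i).IsHomogeneous D) → Hmi I → X 1 ∉ I →
  Mny P → P ∈ I → (∀ q, aeval T q ∈ I ↔ q ∈ I) → Bas P T E θ Δ → Δ ∉ I → 2 * D ≤ E →
  (∀ c : Fin E → Po 5 Qb, (∑ i : Fin E, θ ^ (i : ℕ) * aeval T (c i)) ∈ I → ∀ i, c i ∈ I) →
  up S ∈ I → up S' ∈ I → S ≠ 0 → S' ≠ 0 → IsRelPrime S S' →
  ∃ n : ℕ, 1 ≤ n ∧ ∀ (K : IntermediateField ℚ Qb) (F : HFam K),
    (∀ i, ∀ x ∈ (T i).coeffs, x ∈ K) →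
    (∀ τ : Qb ≃ₐ[K] Qb, ∀ q ∈ I, map ((τ : Qb ≃+* Qb) : Qb →+* Qb) q ∈ I) → ∃ c : ℝ,
    ∀ (Γ : Finset (Qb ≃ₐ[K] Qb)) (L : IntermediateField K Qb), Gc K Γ L →
      ∀ y : Fin 5 → Qb, (∀ i, y i ∈ L) → (∀ q ∈ I, eval y q = 0) → y 1 ≠ 0 →
        (pmap T)^[n] y 1 ≠ 0 → 2 * avn F Γ (af y) ≤ avn F Γ (af ((pmap T)^[n] y)) + Γ.card * c

end Pool.Agent.H18.TXB
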