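import Pool.Agent.H18.TXB.Cbx
import Pool.Agent.H18.BKH.All
import Pool.Agent.H39.TXB.BDY
import Pool.Agent.H4.TXB.CHY
import Pool.Agent.H21.TXB.GRB
import Pool.Agent.H21.TXB.LLY
import Pool.Agent.H78.TXB.LFG
import Pool.Agent.H78.TXB.LGY
import Pool.Agent.H49.TXB.PCX
import Pool.Agent.H42.TXB.PRW
import Pool.Agent.H42.TXB.COB
import Pool.Agent.H63.TXB.PRY

/-!
# Backward heights on threefolds: the rows together
-/

set_option autoImplicit false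

open MvPolynomial
open Pool.Agent.H12.ZD (pmap)
open Pool.Agent.H18.HIT Pool.Agent.H18.HX Pool.Agent.H18.VZ

namespace Pool.Agent.H18.TXB.Al

theorem bdy : T_BDY := Pool.Agent.H39.TXB.pf_BDY Pool.Agent.H8.TD.Al.ctd
theorem chy : T_CHY := Pool.Agent.H4.TXB.pf_CHY
theorem grb : T_GRB := Pool.Agent.H21.TXB.pf_GRB
theorem lfg : T_LFG := Pool.Agent.H78.TXB.pf_LFG
theorem pcx : T_PCX := Pool.Agent.H49.TXB.pf_PCX
theorem cob : T_COB := Pool.Agent.H42.TXB.pf_COB (Pool.Agent.H63.TXB.pf_PRY Qb)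
  (Pool.Agent.H42.TXB.pf_PRW Qb) Pool.Agent.H8.TX.Al.hil
theorem lly : T_LLY := Pool.Agent.H21.TXB.pf_LLY Pool.Agent.H18.BKH.Al.kcl
  Pool.Agent.H8.TD.Al.pbk Pool.Agent.H18.BKH.Al.slr Pool.Agent.H18.BKH.Al.idg
  Pool.Agent.H8.TD.Al.ctd
theorem lgy : T_LGY := Pool.Agent.H78.TXB.pf_LGY lly bdy Pool.Agent.H18.BKH.Al.gal
  Pool.Agent.H18.BKH.Al.fix

theorem cbx_cnv (hCNV : T_CNV) : Pool.Agent.H8.TX.T_CBX :=
  cbx_of grb chy lfg pcx cob lgy hCNV Pool.Agent.H18.BKH.Al.fix Pool.Agent.H18.BKH.Al.gal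
    Pool.Agent.H18.BKH.Al.eqd Pool.Agent.H18.BKH.Al.hln

end Pool.Agent.H18.TXB.Al
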