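import Pool.Agent.H18.TXB.Al
import Pool.Agent.H11.TXB.CNV

/-!
# Backward heights on threefolds: the theorem for hypersurfaces
-/

set_option autoImplicit false

namespace Pool.Agent.H18.TXB.Al

theorem cnv : T_CNV := Pool.Agent.H11.TXB.pf_CNV

/-- the theorem for hypersurfaces in four-dimensional projective space: growth of the second
degrees -/
theorem cbx : Pool.Agent.H8.TX.T_CBX := cbx_cnv cnv

end Pool.Agent.H18.TXB.Al
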