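import Pool.Agent.H18.TXB.Rec
import Pool.Agent.H8.TX.Core2
import Pool.Agent.H18.BKH.Core0

/-!
# Backward heights on threefolds: averages
-/

set_option autoImplicit false

open MvPolynomial
open Pool.Agent.H12.ZD (pmap)
open Pool.Agent.H18.HIT Pool.Agent.H18.HX Pool.Agent.H18.VZ
open Pool.Agent.H8.ZA (HFam Const NA)
open Pool.Agent.H8.TD (lc dg Wsp Cop dh lc_single lc_map lc_iterate)
open Pool.Agent.H8.TX
open Pool.Agent.H18.TE (lg Gc T_GAL T_FIX T_EQD)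
open Pool.Agent.H18.BKH (map_eval map_pmap map_orbit eval_memL orbit_memL Gc.prod_mem)

namespace Pool.Agent.H18.TXB

variable {K : IntermediateField ℚ Qb}

theorem avn_nonneg (F : HFam K) (Γ : Finset (Qb ≃ₐ[K] Qb)) {n : ℕ} (y : Fin n → Qb) :
    0 ≤ avn F Γ y := Finset.sum_nonneg fun _ _ => hn_nonneg F _

/-- points over the base field -/
theorem avn_mem (F : HFam K) (Γ : Finset (Qb ≃ₐ[K] Qb)) {n : ℕ} {y : Fin n → Qb}
    (hy : ∀ i, y i ∈ K) : avn F Γ y = Γ.card * hn F y := by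
  unfold avn
  have h1 : ∀ σ ∈ Γ, hn F (fun i => σ (y i)) = hn F y := by
    intro σ _
    have h2 : (fun i => σ (y i)) = y := by
      funext i
      exact σ.commutes ⟨y i, hy i⟩
    rw [h2]
  rw [Finset.sum_congr rfl h1, Finset.sum_const, nsmul_eq_mul]

theorem map_af (σ : Qb ≃ₐ[K] Qb) (y : Fin 5 → Qb) :
    (fun i => σ (af y i)) = af fun i => σ (y i) := by
  funext i
  exact map_div₀ σ _ _

theorem sum_fin (Γ : Finset (Qb ≃ₐ[K] Qb)) (f : (Qb ≃ₐ[K] Qb) → ℝ) :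
    ∑ j : Fin Γ.card, f ((Γ.equivFin.symm j : Γ) : Qb ≃ₐ[K] Qb) = ∑ σ ∈ Γ, f σ := by
  rw [← Finset.sum_coe_sort Γ f]
  exact Equiv.sum_comp Γ.equivFin.symm (fun σ : Γ => f σ)

theorem prod_fin (Γ : Finset (Qb ≃ₐ[K] Qb)) (f : (Qb ≃ₐ[K] Qb) → Qb) :
    ∏ j : Fin Γ.card, f ((Γ.equivFin.symm j : Γ) : Qb ≃ₐ[K] Qb) = ∏ σ ∈ Γ, f σ := by
  rw [← Finset.prod_coe_sort Γ f]
  exact Equiv.prod_comp Γ.equivFin.symm (fun σ : Γ => f σ)

/-- the averaged recursion -/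
theorem recAv (hFIX : T_FIX) {P : Po 5 Qb} {F : Tup 5 Qb} {r d m : ℕ} {κ β c₀ : ℝ}
    {T : Finset (Po 5 Qb)} (hP : Hyp P r) (hF : ∀ i, (F i).IsHomogeneous d) (F' : HFam K)
    (hrec : ∀ (μ : ℕ) (z : Fin μ → Fin 5 → Qb), (∀ j, eval (z j) P = 0) → (∀ j, z j 1 = 1) →
          (∀ j, ∀ p ∈ T, eval (z j) p ≠ 0) → (∀ p ∈ T, ∏ j, eval (z j) p ∈ K) →
          κ * ∑ j, hn F' (af (pmap (it F m) (z j))) ≤ ∑ j, hn F' (z j) +
            β * ∑ j, hn F' (af (pmap (it F (m + m)) (z j))) + μ * c₀)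
    {Γ : Finset (Qb ≃ₐ[K] Qb)} {L : IntermediateField K Qb} (hΓ : Gc K Γ L)
    (hKF : ∀ i, ∀ c ∈ (F i).coeffs, c ∈ K) (hKT : ∀ p ∈ T, ∀ c ∈ p.coeffs, c ∈ K)
    (hKP : ∀ c ∈ P.coeffs, c ∈ K) {y : Fin 5 → Qb} (hy : ∀ i, y i ∈ L) (hyP : eval y P = 0)
    (hy1 : y 1 ≠ 0) (hyT : ∀ p ∈ T, eval (af y) p ≠ 0) :
    κ * avn F' Γ (af ((pmap F)^[m] y)) ≤ avn F' Γ (af y) +
      β * avn F' Γ (af ((pmap F)^[m + m] y)) + Γ.card * c₀ := by
  have hafL : ∀ i, af y i ∈ L := fun i => div_mem (hy i) (hy 1)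
  have hafP : eval (af y) P = 0 := by
    have h1 := eval_af hP.hom hy1
    rw [hyP] at h1
    exact (mul_eq_zero.1 h1.symm).resolve_left (pow_ne_zero _ hy1)
  obtain ⟨g, hg⟩ : ∃ g : Fin Γ.card → (Qb ≃ₐ[K] Qb), g = fun j =>
    ((Γ.equivFin.symm j : Γ) : Qb ≃ₐ[K] Qb) := ⟨_, rfl⟩
  have hz : ∀ n (σ : Qb ≃ₐ[K] Qb), af (pmap (it F n) fun i => σ (af y i)) =
      fun i => σ (af ((pmap F)^[n] y) i) := by
    intro n σ
    have hσy1 : (fun i => σ (y i)) 1 ≠ 0 := (map_ne_zero σ).2 hy1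
    rw [map_af, af_pmap (it_hom hF n) hσy1, map_af, map_orbit σ F hKF y n,
      pmap_it]
  have h1 := hrec Γ.card (fun j i => g j (af y i)) (fun j => by
      rw [← map_eval (g j) P hKP, hafP, map_zero]) (fun j => by
      rw [af_one hy1, map_one]) (fun j p hp => by
      rw [← map_eval (g j) p (hKT p hp)]
      exact (map_ne_zero (g j)).2 (hyT p hp)) (fun p hp => by
      have h2 : ∀ j, eval (fun i => g j (af y i)) p = g j (eval (af y) p) := fun j =>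
        (map_eval (g j) p (hKT p hp) _).symm
      rw [Finset.prod_congr rfl fun j _ => h2 j, hg,
        prod_fin Γ fun σ => σ (eval (af y) p)]
      exact Gc.prod_mem hΓ hFIX (eval_memL p (hKT p hp) _ hafL))
  rw [hg] at h1
  simp only [hz] at h1
  rw [sum_fin Γ fun σ => hn F' fun i => σ (af ((pmap F)^[m] y) i),
    sum_fin Γ fun σ => hn F' fun i => σ (af ((pmap F)^[m + m] y) i),
    sum_fin Γ fun σ => hn F' fun i => σ (af y i)] at h1
  exact h1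

/-- the average of the heights of the conjugates of a root -/
theorem root_avX (hEQD : T_EQD) (F : HFam K)
    {Γ : Finset (Qb ≃ₐ[K] Qb)} {L : IntermediateField K Qb} (hΓ : Gc K Γ L) {E : ℕ} (hE : 1 ≤ E)
    (c : Fin (E + 1) → Qb) (h0 : c 0 ≠ 0) (hcK : ∀ j, c j ∈ K) (s : Fin 5 → Qb)
    (hs : ∀ i, s i ∈ K) (u : Fin 5 → Qb) (hu : ∀ i, u i ∈ L)
    (hroot : ∑ j : Fin (E + 1), c j * lc s (af u) ^ (E - (j : ℕ)) = 0)
    (hconj : ∀ r, ∑ j : Fin (E + 1), c j * r ^ (E - (j : ℕ)) = 0 →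
      ∃ τ : Qb ≃ₐ[K] Qb, τ (lc s (af u)) = r) {B C cs : ℝ}
    (hB : ∀ S : Multiset Qb,
      ∑ j : Fin (E + 1), Polynomial.C (c j) * Polynomial.X ^ (E - (j : ℕ)) =
        Polynomial.C (c 0) * (S.map fun r => Polynomial.X - Polynomial.C r).prod →
      B ≤ (S.map fun r => hn F ![r]).sum + C)
    (hcs : ∀ w : Fin 5 → Qb, hn F ![lc s w] ≤ hn F w + cs) :
    Γ.card * (B - C) ≤ E * (avn F Γ (af u) + Γ.card * cs) := by
  obtain ⟨h1, h2, h3, h4⟩ := Pool.Agent.H18.BKH.mq_spec hE c h0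
  have hr₀L : lc s (af u) ∈ L := by
    apply sum_mem
    intro i _
    rw [smul_eq_mul]
    exact mul_mem (L.algebraMap_mem ⟨s i, hs i⟩) (div_mem (hu _) (hu _))
  have h5 := hEQD K Γ L hΓ (Pool.Agent.H18.BKH.mq c) (lc s (af u)) h1 (by
      intro j
      unfold Pool.Agent.H18.BKH.mq
      rw [Polynomial.finsetSum_coeff]
      apply sum_mem
      intro i _
      rw [Polynomial.coeff_C_mul, Polynomial.coeff_X_pow]
      apply mul_mem (div_mem (hcK _) (hcK _))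
      split_ifs
      · exact one_mem K
      · exact zero_mem K) hr₀L ((h3 _).2 hroot) (fun r hr => hconj r ((h3 r).1 hr))
    (fun r => hn F ![r])
  rw [h2] at h5
  have h6 := hB _ h4
  have h7 : ∑ σ ∈ Γ, hn F ![σ (lc s (af u))] ≤ avn F Γ (af u) + Γ.card * cs := by
    unfold avn
    rw [← nsmul_eq_mul, ← Finset.sum_const, ← Finset.sum_add_distrib]
    apply Finset.sum_le_sum
    intro σ _
    have h8 : σ (lc s (af u)) = lc s (fun i => σ (af u i)) := by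
      unfold lc
      rw [map_sum]
      apply Finset.sum_congr rfl
      intro i _
      rw [smul_eq_mul, smul_eq_mul, map_mul]
      have h9 : σ (s i) = s i := σ.commutes ⟨s i, hs i⟩
      rw [h9]
    rw [h8]
    exact hcs _
  have hΓ0 : (0 : ℝ) ≤ Γ.card := Nat.cast_nonneg _
  calc (Γ.card : ℝ) * (B - C) ≤
        Γ.card * ((Pool.Agent.H18.BKH.mq c).roots.map fun r => hn F ![r]).sum :=
        mul_le_mul_of_nonneg_left (by linarith) hΓ0
    _ = E * ∑ σ ∈ Γ, hn F ![σ (lc s (af u))] := h5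
    _ ≤ _ := mul_le_mul_of_nonneg_left h7 (Nat.cast_nonneg _)

end Pool.Agent.H18.TXB
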