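import Pool.Agent.H18.TXB.Core
import Pool.Agent.H8.TX.FinB

/-!
# Backward heights on threefolds: the theorem for hypersurfaces
-/

set_option autoImplicit false

open MvPolynomial
open Pool.Agent.H12.ZD (pmap)
open Pool.Agent.H18.HIT Pool.Agent.H18.HX Pool.Agent.H18.VZ
open Pool.Agent.H8.ZA (HFam Const NA)
open Pool.Agent.H8.TD (lc dg Wsp Cop dh lc_single lc_map lc_iterate)
open Pool.Agent.H8.TX
open Pool.Agent.H18.TE (lg Gc T_GAL T_FIX T_EQD T_HLN)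

namespace Pool.Agent.H18.TXB

/-- the theorem for hypersurfaces in four-dimensional projective space -/
theorem cbx_of (hGRB : T_GRB) (hCHY : T_CHY) (hLFG : T_LFG) (hPCX : T_PCX) (hCOB : T_COB)
    (hLGY : T_LGY) (hCNV : T_CNV) (hFIX : T_FIX) (hGAL : T_GAL) (hEQD : T_EQD)
    (hHLN : T_HLN) : T_CBX := by
  classical
  intro r d e P b F c hP hrd hd hF hsl hNI he hU hec hgrow hb hPb
  have hX1 : ¬ P ∣ (X 1 : Po 5 Qb) := not_dvd_X1 hP
  have hprime : (Ideal.span {P} : Ideal (Po 5 Qb)).IsPrime := isPrime_span hP.irr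
  have hXI : ∃ i, (X i : Po 5 Qb) ∉ (Ideal.span {P} : Ideal (Po 5 Qb)) :=
    ⟨1, fun h => hX1 (Ideal.mem_span_singleton.mp h)⟩
  have hr : 1 ≤ r := one_le_r hP
  have he1 : (1 : ℝ) ≤ e := by exact_mod_cast he
  obtain ⟨E₁, θ₁, Δ₁, hB₁, hcv₁⟩ := Facts.bas 4 Qb P F hP.irr hP.mon hsl
  have hE₁ : E₁ ≤ d * e := by
    have h1 := Al.upx 5 d e 1 E₁ Qb (Ideal.span {P}) F (by omega) hF hsl hXI hU (by
      rw [it_one]
      exact hcv₁)
    rwa [pow_one, pow_one] at h1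
  obtain ⟨K, _, _, ξ, τ, a, hdat⟩ := exists_datx Al.fld Al.npa Al.npb Al.dgy hP (by omega) hF hsl
    hB₁ hE₁
  have hgr := hgrow K ξ τ hdat.fd
  by_cases hU1 : Upv (Ideal.span {P}) F 1
  · -- birational maps
    obtain ⟨c₁, h1c, hc₁⟩ : ∃ c₁ : ℝ, 1 < c₁ ∧ c₁ ^ 2 < c := by
      refine ⟨Real.sqrt ((1 + c) / 2), ?_, ?_⟩
      · rw [Real.lt_sqrt (by norm_num)]
        linarith
      · rw [Real.sq_sqrt (by linarith)]
        linarith
    obtain ⟨N₁, hN₁⟩ := pow_shift (c := c₁ ^ 2) (c' := c) (by positivity) hc₁ ((r : ℝ) ^ 3)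
    refine coreX Al.inx Al.bzx Al.ldx Al.amx Al.grc Al.knx Al.rng Al.exn Al.fld Al.npa Al.npb
      Al.dgy Al.upx Al.col Al.cjx Al.htx Al.stx Al.rla Al.rlb Al.hrx hP hrd hd hF hsl hNI
      le_rfl hU1 c₁ (by push_cast; exact h1c) (fun N => ?_) hb hPb
    obtain ⟨n, hn, s, s', s'', h1⟩ := hgr (max N N₁)
    refine ⟨n, (le_max_left _ _).trans hn, fun H m hH hH0 hHc => ?_⟩
    have h2 := hN₁ n ((le_max_right _ _).trans hn)
    have h3 := hdat.b3 Al.inx Al.bzx n n s' s'' s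
    rw [set_rot, set_rot] at h3
    have h4 := deg_lower Al.inx Al.bzx Al.ldx hdat hH hH0 hHc
    have h5 : dg Qb {lc s ξ, lc s' (pn τ ξ n), lc s'' (pn τ ξ n)} ≤
        (m * r) * ((m * r) * r) := by
      refine le_trans (le_of_eq ?_) (h3.trans (Nat.mul_le_mul h4 (Nat.mul_le_mul_right _ h4)))
      congr 1
      rw [set_rot, set_rot, set_rot]
    have h6 : c ^ n ≤ ((m * r) * ((m * r) * r) : ℝ) := h1.trans (by exact_mod_cast h5)
    have h7 : (r : ℝ) ^ 3 * (c₁ ^ n) ^ 2 ≤ (r : ℝ) ^ 3 * (m : ℝ) ^ 2 := by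
      calc (r : ℝ) ^ 3 * (c₁ ^ n) ^ 2 = (r : ℝ) ^ 3 * (c₁ ^ 2) ^ n := by
            rw [← pow_mul, ← pow_mul, Nat.mul_comm]
        _ ≤ c ^ n := h2
        _ ≤ (m * r) * ((m * r) * r) := h6
        _ = _ := by ring
    have hr0 : (0 : ℝ) < (r : ℝ) ^ 3 := by
      have : (0 : ℝ) < r := by exact_mod_cast hr
      positivity
    have h8 : (c₁ ^ n) ^ 2 ≤ (m : ℝ) ^ 2 := le_of_mul_le_mul_left h7 hr0
    exact le_of_sq_le_sq h8 (Nat.cast_nonneg m)
  by_cases hslow : ∀ c' : ℝ, (e : ℝ) < c' → ∃ N, ∀ n ≥ N, (a n : ℝ) < c' ^ n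
  · exact coreB Al.inx Al.bzx Al.ldx hGRB Al.knx Al.rng Al.exn Al.npa hCHY hLFG hPCX hCOB hLGY hCNV
      hFIX hGAL hEQD hHLN Al.htx hP hrd hd hF hsl hNI he hU1 hdat c hec hgr hslow hb hPb
  · -- the first degrees grow faster than the topological degree
    push Not at hslow
    obtain ⟨c', hec', hfast⟩ := hslow
    obtain ⟨c₁, hec₁, hc₁⟩ := exists_between hec'
    obtain ⟨N₁, hN₁⟩ := pow_shift (c := c₁) (c' := c') (by linarith) hc₁ (r : ℝ)
    refine coreX Al.inx Al.bzx Al.ldx Al.amx Al.grc Al.knx Al.rng Al.exn Al.fld Al.npa Al.npb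
      Al.dgy Al.upx Al.col Al.cjx Al.htx Al.stx Al.rla Al.rlb Al.hrx hP hrd hd hF hsl hNI
      he hU c₁ hec₁ (fun N => ?_) hb hPb
    obtain ⟨n, hn, h1⟩ := hfast (max N N₁)
    refine ⟨n, (le_max_left _ _).trans hn, fun H m hH hH0 hHc => ?_⟩
    have h2 := hN₁ n ((le_max_right _ _).trans hn)
    have h4 := deg_lower Al.inx Al.bzx Al.ldx hdat hH hH0 hHc
    have h5 : (a n : ℝ) ≤ m * r := by exact_mod_cast h4
    have hr0 : (0 : ℝ) < (r : ℝ) := by exact_mod_cast hr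
    have h6 : (r : ℝ) * c₁ ^ n ≤ r * m := by
      calc (r : ℝ) * c₁ ^ n ≤ c' ^ n := h2
        _ ≤ a n := h1
        _ ≤ m * r := h5
        _ = _ := mul_comm _ _
    exact le_of_mul_le_mul_left h6 hr0

end Pool.Agent.H18.TXB
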