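import Pool.Agent.H18.TXB.Core1

/-!
# Backward heights on threefolds: the core
-/

set_option autoImplicit false

open MvPolynomial
open Pool.Agent.H12.ZD (pmap)
open Pool.Agent.H18.HIT Pool.Agent.H18.HX Pool.Agent.H18.VZ
open Pool.Agent.H8.ZA (HFam Const NA)
open Pool.Agent.H8.TD (lc dg Wsp Cop dh lc_single lc_map lc_iterate)
open Pool.Agent.H8.TX
open Pool.Agent.H18.TE (lg Gc T_GAL T_FIX T_EQD T_HLN)
open Pool.Agent.H18.BKH (map_eval map_pmap map_orbit eval_memL orbit_memL Gc.prod_mem growB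
  bounded_of_rec exists_large)

namespace Pool.Agent.H18.TXB

/-- the orbit closure is stable under the automorphisms over a field of definition -/
theorem van_stable {K : IntermediateField ℚ Qb} {F : Tup 5 Qb}
    (hKF : ∀ i, ∀ c ∈ (F i).coeffs, c ∈ K) {x : Fin 5 → Qb} (hx : ∀ i, x i ∈ K) (k : ℕ)
    (τ : Qb ≃ₐ[K] Qb) {q : Po 5 Qb} (hq : q ∈ van (it F k) x) :
    map ((τ : Qb ≃+* Qb) : Qb →+* Qb) q ∈ van (it F k) x := by
  intro l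
  have h1 : (pmap (it F k))^[l] x = (pmap F)^[k * l] x := by
    rw [pmap_it_iterate]
  have h2 := hq l
  rw [h1] at h2 ⊢
  have h3 : (fun i => τ ((pmap F)^[k * l] x i)) = (pmap F)^[k * l] x := by
    rw [map_orbit τ F hKF]
    congr 1
    exact funext fun i => τ.commutes ⟨_, hx i⟩
  have h4 := congrArg τ h2
  rw [map_zero] at h4
  rw [← h3, ← h4]
  have h5 := eval₂_comp_left ((τ : Qb ≃+* Qb) : Qb →+* Qb) (RingHom.id Qb)
    ((pmap F)^[k * l] x) q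
  rw [RingHom.comp_id] at h5
  rw [eval_map]
  exact h5.symm

/-- **the core**: self-maps of threefolds whose second dynamical degree is larger than the
topological degree -/
theorem coreB (hINX : T_INX) (hBZX : T_BZX) (hLDX : T_LDX) (hGRB : T_GRB) (hKNX : T_KNX)
    (hRNG : T_RNG) (hEXN : T_EXN) (hNPA : T_NPA) (hCHY : T_CHY) (hLFG : T_LFG) (hPCX : T_PCX)
    (hCOB : T_COB) (hLGY : T_LGY) (hCNV : T_CNV) (hFIX : T_FIX) (hGAL : T_GAL) (hEQD : T_EQD)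
    (hHLN : T_HLN) (hHTX : T_HTX) {r d e : ℕ} {P b : Po 5 Qb} {F : Tup 5 Qb} (hP : Hyp P r)
    (hrd : r ≤ d) (hd : 2 ≤ d) (hF : ∀ i, (F i).IsHomogeneous d) (hsl : Slf (Ideal.span {P}) F)
    (hNI : NIv P F) (he : 1 ≤ e) (hU : ¬ Upv (Ideal.span {P}) F 1) {K : Type} [Field K]
    [Algebra Qb K] {ξ : Fin 5 → K} {τ : K →ₐ[Qb] K} {a : ℕ → ℕ} (hdat : DatX P r F ξ τ a e)
    (c : ℝ) (hec : (e : ℝ) < c)
    (hgrow : ∀ N, ∃ n ≥ N, ∃ s s' s'' : Fin 5 → Qb,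
      c ^ n ≤ (dg Qb {lc s ξ, lc s' (pn τ ξ n), lc s'' (pn τ ξ n)} : ℝ))
    (hslow : ∀ c' : ℝ, (e : ℝ) < c' → ∃ N, ∀ n ≥ N, (a n : ℝ) < c' ^ n)
    (hb : ∃ m, b.IsHomogeneous m) (hPb : ¬ P ∣ b) :
    ∃ x : Fin 5 → Qb, eval x P = 0 ∧ (∀ n : ℕ, eval ((pmap F)^[n] x) b ≠ 0) ∧
      ∀ c : Po 5 Qb, (∀ n : ℕ, eval ((pmap F)^[n] x) c = 0) → P ∣ c := by
  classical
  have hr : 1 ≤ r := one_le_r hP
  have hpr := hP.irr.prime
  have hprime : (Ideal.span {P} : Ideal (Po 5 Qb)).IsPrime := isPrime_span hP.irr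
  have hX1 : ¬ P ∣ (X 1 : Po 5 Qb) := not_dvd_X1 hP
  obtain ⟨m, Y, κ, β, T, s, s', s'', hm, hY, hT, hβ, hκ, hβκ, hβρ, hYs, hrec⟩ :=
    recB hINX hBZX hLDX hGRB hKNX hRNG hEXN hdat hr he c hec hgrow hslow
  obtain ⟨E₁, Y', Cf, hE₁, hCf, hcop, hC0, hirr, hEY, hrel⟩ :=
    eq_data hINX hBZX hNPA hCHY hdat hr he hYs
  obtain ⟨ρ, hρdef⟩ : ∃ ρ : ℝ, ρ = (Y : ℝ) / ((r : ℝ) ^ 3 * (e : ℝ) ^ m) := ⟨_, rfl⟩
  rw [← hρdef] at hβρ hEY
  have hρ : 0 < ρ := by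
    rw [hρdef]
    have h1 : (0 : ℝ) < e := by exact_mod_cast he
    have h2 : (0 : ℝ) < Y := by exact_mod_cast hY
    have h3 : (0 : ℝ) < r := by exact_mod_cast hr
    positivity
  obtain ⟨b₁, hb₁⟩ : ∃ b₁ : Po 5 Qb, b₁ = ∏ p ∈ T, hmg p := ⟨_, rfl⟩
  have hb₁hom : b₁.IsHomogeneous (∑ p ∈ T, p.totalDegree) := by
    rw [hb₁]
    exact IsHomogeneous.prod _ _ _ fun p _ => hmg_hom p
  have hPb₁ : ¬ P ∣ b₁ := by
    rw [hb₁]
    intro h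
    obtain ⟨p, hp, hPp⟩ := (Prime.dvd_finsetProd_iff hpr _).1 h
    apply hT p hp
    rw [← aeval_hmg p ξ hdat.fd.gp.one]
    exact aeval_dvd hdat.fd.gp hP hPp
  obtain ⟨mb, hmb⟩ := hb
  obtain ⟨k, α, ϖ, hk, hmk, hϖ, hcol⟩ := hCOB 4 r d m P (b * X 1 * b₁) F (by norm_num) hm hP hrd
    hF hsl ⟨_, (hmb.mul (isHomogeneous_X _ _)).mul hb₁hom⟩ (fun h => (hpr.dvd_or_dvd h).elim
      (fun h => (hpr.dvd_or_dvd h).elim hPb hX1) hPb₁)
  obtain ⟨k₀, hk₀⟩ := hmk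
  rw [Nat.mul_comm] at hk₀
  have hk₀1 : 1 ≤ k₀ := by
    rw [Nat.one_le_iff_ne_zero]
    rintro rfl
    omega
  have hmk' : m ≤ k := by
    rw [hk₀]
    exact Nat.le_mul_of_pos_left m hk₀1
  have hsk := hsl.it k
  obtain ⟨E, θ, Δ, hB, hcv⟩ := Facts.bas 4 Qb P (it F k) hP.irr hP.mon hsk
  have hNT : NIv P (it F k) := Facts.niv 4 r d k Qb P F hP hF hsl hk hNI
  have hFk : ∀ i, (it F k i).IsHomogeneous (d ^ k) := it_hom hF k
  have hD2 : 2 ≤ d ^ k := hd.trans (Nat.le_self_pow (by omega) d)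
  have hE2 : 2 * d ^ k ≤ E := by
    by_contra hlt
    exact hU (upv_one hsl hk (hPCX 4 r (d ^ k) E Qb P θ Δ (it F k) (by norm_num) (by omega) hP hFk
      hsk hB (by omega)))
  obtain ⟨g₁, hg₁, hinv⟩ := Facts.inv 4 r (d ^ k) E Qb P (it F k) θ Δ hP hFk hsk hB hNT
  obtain ⟨c', A', hc'0, hc'⟩ := Pool.Agent.H18.HX.All.nrx 4 Qb P Δ hP.irr hP.mon hB.ne
  obtain ⟨x, K₀, F', hKfin, hKF, hKI, hxK, hxP, hxk, hxb, hx1, hxg, hVp, hVt, hxV, hbig⟩ :=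
    pointB hFIX hEQD hHLN hHTX hLFG (b := b) (m := m) (k := k) (k₀ := k₀) (l := k - m) (E := E)
      (θ := θ) hP hF hsl hβ hκ hβκ hβρ hρ hb₁ hrec hE₁ hCf hcop hC0 hirr hEY hk₀ hk₀1 (by omega)
      (by
        have h1 := eq_poly hdat hF hCf hrel (k - m)
        rw [Nat.add_sub_cancel' hmk'] at h1
        exact h1)
      hϖ (mul_ne_zero hg₁ hc'0) (hcol E θ Δ hB hcv)
  have hxg' : eval (x 0) (up g₁) ≠ 0 ∧ eval (x 0) (up c') ≠ 0 := by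
    have h1 : eval (x 0) (up (g₁ * c')) = eval (x 0) (up g₁) * eval (x 0) (up c') := by
      rw [up, up, up, map_mul, map_mul]
    rw [h1] at hxg
    exact ⟨left_ne_zero_of_mul hxg, right_ne_zero_of_mul hxg⟩
  obtain ⟨hxg₁, hxc'⟩ := hxg'
  have hxΔ : eval (x 0) Δ ≠ 0 := by
    intro h0
    apply hxc'
    obtain ⟨B', hB'⟩ := hc'
    have h1 := congrArg (eval (x 0)) hB'
    rw [map_sub, map_mul, map_mul (eval (x 0)) P, hxP, h0, zero_mul, zero_mul, sub_zero] at h1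
    exact h1
  have hzer := zer_span.mpr (hxP 0)
  have hPV : P ∈ van (it F k) (x 0) := by
    intro n
    exact zer_iterate hsk.inv hzer n P (Ideal.mem_span_singleton_self P)
  have hΔV : Δ ∉ van (it F k) (x 0) := fun h => hxΔ (h 0)
  have hHm : Hmi (van (it F k) (x 0)) :=
    Facts.cne 4 r (d ^ k) E Qb P (it F k) θ Δ (x 0) hP hD2 hFk hsk hB (hxP 0) hVp hVt hΔV
  refine ⟨x 0, hxP 0, hxb 0, fun c hc => ?_⟩
  have hcV : c ∈ van (it F k) (x 0) := by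
    intro n
    rw [pmap_it_iterate]
    exact hc _
  by_contra hPc
  by_cases hex : ∃ h, Pdv P (van (it F k) (x 0)) h
  · obtain ⟨h, hh⟩ := hex
    have h1 := hinv _ h hh hHm hVt
    exact hxg₁ (h1 0)
  obtain ⟨Sa, Sb, hSa, hSb, hSa0, hSb0, hrl⟩ := avx hP hVp hPV ⟨c, hcV, hPc⟩ hex
  have hiff : ∀ q, aeval (it F k) q ∈ van (it F k) (x 0) ↔ q ∈ van (it F k) (x 0) := by
    intro q
    refine ⟨fun h => ?_, fun h => hVt.inv q h⟩
    have h1 := hVt.ind (fun i => if (i : ℕ) = 0 then q else 0) (by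
      have hE1 := hB.pos
      rw [Finset.sum_eq_single (⟨0, by omega⟩ : Fin E)]
      · rw [if_pos rfl, pow_zero, one_mul]
        exact h
      · intro i _ hi
        rw [if_neg (fun h0 => hi (Fin.ext h0)), map_zero, mul_zero]
      · intro h0
        exact absurd (Finset.mem_univ _) h0) ⟨0, by have := hB.pos; omega⟩
    simpa using h1
  have hX1V : X 1 ∉ van (it F k) (x 0) := by
    intro h0
    have h1 := h0 0
    rw [Function.iterate_zero, id, eval_X] at h1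
    exact hx1 0 0 h1
  obtain ⟨n, hn1, hV⟩ := hLGY P θ Δ (van (it F k) (x 0)) (it F k) (d ^ k) E Sa Sb hVp (by omega)
    hFk hHm hX1V hP.mon hPV hiff hB hΔV hE2 hVt.ind hSa hSb hSa0 hSb0 hrl
  -- the field of definition of the point
  obtain ⟨K₁, hK₁⟩ : ∃ K₁, K₁ = K₀ ⊔ IntermediateField.adjoin ℚ {x 0 0} := ⟨_, rfl⟩
  have hle : K₀ ≤ K₁ := by
    rw [hK₁]
    exact le_sup_left
  have hfin1 : FiniteDimensional ℚ K₁ := by
    rw [hK₁]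
    have := hKfin
    have : FiniteDimensional ℚ (IntermediateField.adjoin ℚ {x 0 0}) :=
      IntermediateField.adjoin.finiteDimensional
        (Algebra.IsAlgebraic.isAlgebraic (R := ℚ) (x 0 0)).isIntegral
    exact IntermediateField.finiteDimensional_sup K₀ (IntermediateField.adjoin ℚ {x 0 0})
  have hx0K : ∀ i, x 0 i ∈ K₁ := by
    intro i
    refine Fin.cases ?_ (fun i' => hle (hxK i')) i
    rw [hK₁]
    exact (le_sup_right : IntermediateField.adjoin ℚ {x 0 0} ≤ _)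
      (IntermediateField.mem_adjoin_simple_self ℚ (x 0 0))
  have hKF1 : ∀ i, ∀ c ∈ (F i).coeffs, c ∈ K₁ := fun i c hc => hle (hKF i c hc)
  obtain ⟨F₁, r₁, hr₁, hconv⟩ := hCNV K₀ K₁ F' hle hfin1
  obtain ⟨cV, hcV'⟩ := hV K₁ F₁ (fun i c hc => hle (hKI i c hc)) fun τ q hq =>
    van_stable hKF1 hx0K k τ hq
  obtain ⟨M, hM1, hM2⟩ : ∃ M : ℝ, hn F₁ (af (x 0)) ≤ M ∧ cV ≤ M :=
    ⟨max _ _, le_max_left _ _, le_max_right _ _⟩
  obtain ⟨j₀, hj₀⟩ := pow_unbounded_of_one_lt M (show 1 < κ / 2 by linarith)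
  obtain ⟨N, hN⟩ : ∃ N : ℕ, N = n * (j₀ + 1) := ⟨_, rfl⟩
  have hN1 : j₀ + 1 ≤ N := by
    rw [hN]
    exact Nat.le_mul_of_pos_left _ hn1
  obtain ⟨Γ₀, L₀, hL₀, hΓ₀⟩ := hGAL K₀ (Finset.univ.image (x N))
  obtain ⟨Γ₁, L₁, hL₁, hΓ₁⟩ := hGAL K₁ (Finset.univ.image (x N))
  have hx₀ : ∀ i, x N i ∈ L₀ := fun i => hL₀ _ (Finset.mem_image_of_mem _ (Finset.mem_univ i))
  have hx₁ : ∀ i, x N i ∈ L₁ := fun i => hL₁ _ (Finset.mem_image_of_mem _ (Finset.mem_univ i))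
  have h1 := hbig N Γ₀ L₀ (by omega) hΓ₀ hx₀
  have h2 : avn F₁ Γ₁ (af (x N)) ≤ Γ₁.card * M := by
    rw [hN]
    rw [hN] at hx₁
    exact smallX hxk F₁ hΓ₁ hKF1 hx₁ hxV (fun j => hx1 j 0) hx0K hM1 hM2
      (fun y hyL hyV hy1 hyn => hcV' Γ₁ L₁ hΓ₁ y hyL hyV hy1 hyn)
  have h3 := hconv 5 (af (x N)) Γ₀ L₀ Γ₁ L₁ hΓ₀ hΓ₁ (fun i => div_mem (hx₀ i) (hx₀ 1))
    (fun i => div_mem (hx₁ i) (hx₁ 1))
  have hΓ0 : (0 : ℝ) < Γ₀.card := by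
    exact_mod_cast hΓ₀.ne.card_pos
  have hΓ1 : (0 : ℝ) < Γ₁.card := by
    exact_mod_cast hΓ₁.ne.card_pos
  have hr1 : (1 : ℝ) ≤ r₁ := by exact_mod_cast hr₁
  have h4 : (κ / 2) ^ j₀ ≤ (κ / 2) ^ (k₀ * N - 1) := by
    apply pow_le_pow_right₀ (by linarith)
    have h5 : N ≤ k₀ * N := Nat.le_mul_of_pos_left _ hk₀1
    omega
  have h5 : (0 : ℝ) < (κ / 2) ^ j₀ := by
    have : (0 : ℝ) < κ / 2 := by linarith
    positivity
  have h6 : 1 * (Γ₁.card * ((κ / 2) ^ j₀ * Γ₀.card)) ≤ r₁ * (Γ₁.card * avn F' Γ₀ (af (x N))) := by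
    apply mul_le_mul hr1 _ (by positivity) (by positivity)
    apply mul_le_mul_of_nonneg_left _ hΓ1.le
    exact (mul_le_mul_of_nonneg_right h4 hΓ0.le).trans h1
  have h7 : (Γ₀.card : ℝ) * avn F₁ Γ₁ (af (x N)) ≤ Γ₀.card * (Γ₁.card * M) :=
    mul_le_mul_of_nonneg_left h2 hΓ0.le
  rw [← h3] at h6
  have h8 : (κ / 2) ^ j₀ * (Γ₁.card * Γ₀.card : ℝ) ≤ M * (Γ₁.card * Γ₀.card) := by
    calc (κ / 2) ^ j₀ * (Γ₁.card * Γ₀.card : ℝ) = 1 * (Γ₁.card * ((κ / 2) ^ j₀ * Γ₀.card)) := by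
          ring
      _ ≤ Γ₀.card * (Γ₁.card * M) := h6.trans h7
      _ = _ := by ring
  have h9 : (κ / 2) ^ j₀ ≤ M := le_of_mul_le_mul_right h8 (mul_pos hΓ1 hΓ0)
  linarith

end Pool.Agent.H18.TXB
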