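import Pool.Agent.H18.TXB.Av
import Pool.Agent.H33.TX.RLA

/-!
# Backward heights on threefolds: the equation of a linear form over the coordinates of an iterate
-/

set_option autoImplicit false

open MvPolynomial
open Pool.Agent.H12.ZD (pmap)
open Pool.Agent.H18.HIT Pool.Agent.H18.HX Pool.Agent.H18.VZ
open Pool.Agent.H8.ZA (HFam Const NA)
open Pool.Agent.H8.TD (lc dg Wsp Cop dh lc_single lc_map lc_iterate)
open Pool.Agent.H8.TX

namespace Pool.Agent.H18.TXB

section alg

variable {k K : Type} [Field k] [Field K] [Algebra k K] {P : Po 5 k} {ξ : Fin 5 → K} {r : ℕ}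

/-- the field is algebraic over the functions of three coordinates of a dominant image -/
theorem alg_mu (hG : Gp P ξ) (hP : Hyp P r) (f : K →ₐ[k] K) :
    Algebra.IsAlgebraic (IntermediateField.adjoin k
      (Set.range fun i : Fin 3 => f (ξ i.succ.succ))) K := by
  obtain ⟨E₀, hE₀⟩ : ∃ E₀ : IntermediateField k K, E₀ = IntermediateField.adjoin k
    (Set.range fun i : Fin 3 => f (ξ i.succ.succ)) := ⟨_, rfl⟩
  rw [← hE₀]
  have hmem : ∀ i : Fin 3, f (ξ i.succ.succ) ∈ E₀ := fun i => by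
    rw [hE₀]
    exact IntermediateField.subset_adjoin _ _ ⟨i, rfl⟩
  have hmem' : ∀ i : Fin 4, f (ξ i.succ) ∈ E₀ := by
    intro i
    refine Fin.cases ?_ (fun j => hmem j) i
    have h1 : ξ (Fin.succ 0) = 1 := hG.one
    rw [h1, map_one]
    exact one_mem E₀
  obtain ⟨π, hπ⟩ : ∃ π : Po 5 k →ₐ[k] K, π = f.comp (aeval ξ) := ⟨_, rfl⟩
  have hπX : ∀ i, π (X i) = f (ξ i) := by
    intro i
    rw [hπ, AlgHom.comp_apply, aeval_X]
  have hint := Pool.Agent.H33.TX.rla_int π P hP.mon (by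
    rw [hπ, AlgHom.comp_apply, aeval_P hG hP, map_zero]) E₀ (fun i => by
    rw [hπX]
    exact hmem' i)
  rw [hπX] at hint
  have hall : ∀ i, f (ξ i) ∈ (algebraicClosure E₀ K).restrictScalars k := by
    intro i
    rw [IntermediateField.mem_restrictScalars, mem_algebraicClosure_iff]
    refine Fin.cases ?_ (fun j => ?_) i
    · exact hint.isAlgebraic
    · exact isAlgebraic_algebraMap (⟨_, hmem' j⟩ : E₀)
  have hle : f.fieldRange ≤ (algebraicClosure E₀ K).restrictScalars k := by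
    have h1 : f.fieldRange = IntermediateField.adjoin k (Set.range fun i => f (ξ i)) := by
      have h2 : (Set.range fun i => f (ξ i)) = f '' Set.range ξ := by
        rw [← Set.range_comp]
        rfl
      rw [h2, ← IntermediateField.adjoin_map, hG.top]
      exact AlgHom.fieldRange_eq_map f
    rw [h1, IntermediateField.adjoin_le_iff]
    rintro _ ⟨i, rfl⟩
    exact hall i
  have h3 : Algebra.IsAlgebraic ((algebraicClosure E₀ K).restrictScalars k) K :=
    alg_mono hle (alg_range hG.trd f)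
  have h4 : Algebra.IsAlgebraic (algebraicClosure E₀ K) K := ⟨fun x => h3.isAlgebraic x⟩
  exact Algebra.IsAlgebraic.trans E₀ (algebraicClosure E₀ K) K

/-- constants do not change the intersection numbers -/
theorem dg_add (x β γ : K) (c : k) : dg k {algebraMap k K c + x, β, γ} = dg k {x, β, γ} := by
  have h1 : ∀ (x : K) (c : k), IntermediateField.adjoin k {algebraMap k K c + x, β, γ} ≤
      IntermediateField.adjoin k {x, β, γ} := by
    intro x c
    rw [IntermediateField.adjoin_le_iff]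
    rintro y (rfl | rfl | rfl)
    · exact add_mem (IntermediateField.algebraMap_mem _ _)
        (IntermediateField.subset_adjoin _ _ (Or.inl rfl))
    · exact IntermediateField.subset_adjoin _ _ (Or.inr (Or.inl rfl))
    · exact IntermediateField.subset_adjoin _ _ (Or.inr (Or.inr rfl))
  have h2 : IntermediateField.adjoin k {algebraMap k K c + x, β, γ} =
      IntermediateField.adjoin k {x, β, γ} := by
    apply le_antisymm (h1 x c)
    have h3 := h1 (algebraMap k K c + x) (-c)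
    rw [map_neg, neg_add_cancel_left] at h3
    exact h3
  unfold dg
  rw [h2]

end alg

section

variable {K : Type} [Field K] [Algebra Qb K] {P : Po 5 Qb} {F : Tup 5 Qb} {ξ : Fin 5 → K}
  {τ : K →ₐ[Qb] K} {r : ℕ} {a : ℕ → ℕ} {e : ℕ}

/-- a linear form in all coordinates as an algebraic function of the last ones -/
theorem lc_bound (hINX : T_INX) (hNPA : T_NPA) (h : DatX P r F ξ τ a e) (m : ℕ) (β γ : K) (B : ℕ)
    (hB : ∀ u : Fin 3 → Qb, dg Qb {lc u (fun i : Fin 3 => pn τ ξ m i.succ.succ), β, γ} ≤ B)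
    (s : Fin 5 → Qb) : dg Qb {lc s (pn τ ξ m), β, γ} ≤ r * B := by
  have hX1 : ¬ P ∣ (X 1 : Po 5 Qb) := not_dvd_X1 h.hyp
  obtain ⟨p, hp⟩ : ∃ p : Po 5 Qb, p = ∑ i, C (s i) * X i := ⟨_, rfl⟩
  have hph : p.IsHomogeneous 1 := by
    rw [hp]
    apply IsHomogeneous.sum
    intro i _
    have h1 := (isHomogeneous_C (Fin 5) (s i)).mul (isHomogeneous_X Qb i)
    rwa [zero_add] at h1
  have hpξ : aeval ξ p = lc s ξ := by
    rw [hp, map_sum, lc]
    refine Finset.sum_congr rfl fun i _ => ?_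
    rw [map_mul, aeval_C, aeval_X, Algebra.smul_def]
  obtain ⟨Nf, h1, h2, -, h4, -⟩ := hNPA Qb r 1 P p (X 1) h.hyp hph (isHomogeneous_X _ _) hX1
  obtain ⟨f, hf⟩ := iter_algHomX τ m
  have hfξ : ∀ i, pn τ ξ m i = f (ξ i) := by
    intro i
    rw [hf]
    rfl
  have hup : ∀ q : Po 4 Qb, aeval (fun i : Fin 4 => pn τ ξ m i.succ) q = f (aeval ξ (up q)) := by
    intro q
    have h5 : (fun i : Fin 4 => pn τ ξ m i.succ) = fun i => f (ξ i.succ) := funext fun i =>
      hfξ i.succ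
    rw [h5, up, aeval_rename, ← AlgHom.comp_apply, comp_aeval]
    rfl
  have hrel := aeval_dvd h.fd.gp h.hyp h4
  rw [map_sum] at hrel
  rw [Nat.mul_one] at h1
  refine hINX Qb K 4 (fun i : Fin 4 => pn τ ξ m i.succ) β γ (lc s (pn τ ξ m)) r B r Nf
    h.fd.gp.trd (fun u => ?_) (fun j => (h1 j).totalDegree_le) ?_ ?_
  · have h5 : lc u (fun i : Fin 4 => pn τ ξ m i.succ) = algebraMap Qb K (u 0) +
        lc (fun i : Fin 3 => u i.succ) (fun i : Fin 3 => pn τ ξ m i.succ.succ) := by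
      rw [lc, Fin.sum_univ_succ, lc]
      have h6 : pn τ ξ m (Fin.succ 0) = 1 := pn_one h.fd m
      rw [h6, Algebra.smul_def, mul_one]
    rw [h5, dg_add]
    exact hB _
  · rw [hup]
    intro h0
    exact aeval_up_ne h.fd.gp h.hyp (h1 r) h2 (f.toRingHom.injective (by rw [map_zero]; exact h0))
  · have h6 : ∑ j ∈ Finset.range (r + 1), aeval ξ (up (Nf j)) * (lc s ξ) ^ j = 0 := by
      rw [← hrel]
      refine Finset.sum_congr rfl fun j _ => ?_
      rw [map_mul, map_mul, map_pow, map_pow, hpξ, aeval_X, h.fd.gp.one, one_pow, mul_one]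
    have h7 := congrArg f h6
    rw [map_sum, map_zero] at h7
    rw [← h7]
    refine Finset.sum_congr rfl fun j _ => ?_
    rw [map_mul, map_pow, hup]
    congr 2
    rw [lc_map]
    congr 1
    exact funext hfξ

/-- the equation of a linear form over the coordinates of the iterate -/
theorem eq_data (hINX : T_INX) (hBZX : T_BZX) (hNPA : T_NPA) (hCHY : T_CHY)
    (h : DatX P r F ξ τ a e) (hr : 1 ≤ r) (he : 1 ≤ e) {m Y : ℕ} {s s' s'' : Fin 5 → Qb}
    (hY : dg Qb {lc s ξ, lc s' (pn τ ξ m), lc s'' (pn τ ξ m)} = Y) :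
    ∃ (E Y' : ℕ) (Cf : Fin (E + 1) → Po 4 Qb), 1 ≤ E ∧ (∀ j, (Cf j).IsHomogeneous Y') ∧
      Cop Cf ∧ Cf 0 ≠ 0 ∧
      Irreducible (∑ j : Fin (E + 1), Polynomial.C (Cf j) * Polynomial.X ^ (E - (j : ℕ))) ∧
      E * ((Y : ℝ) / ((r : ℝ) ^ 3 * (e : ℝ) ^ m)) ≤ Y' ∧
      ∀ l : ℕ, ∑ j : Fin (E + 1), aeval (fun i : Fin 4 => pn τ ξ (m + l) i.succ) (Cf j) *
        lc s (pn τ ξ l) ^ (E - (j : ℕ)) = 0 := by
  obtain ⟨f, hf⟩ := iter_algHomX τ m
  have hfξ : ∀ i, pn τ ξ m i = f (ξ i) := by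
    intro i
    rw [hf]
    rfl
  have halg := alg_mu h.fd.gp h.hyp f
  obtain ⟨μ, hμ⟩ : ∃ μ : Fin 3 → K, μ = fun i => pn τ ξ m i.succ.succ := ⟨_, rfl⟩
  have hμf : (fun i : Fin 3 => f (ξ i.succ.succ)) = μ := by
    rw [hμ]
    exact funext fun i => (hfξ _).symm
  rw [hμf] at halg
  obtain ⟨E, Y', Cf, hE, hCf, hcop, hCf0, hirr, hrel, hdeg⟩ :=
    hCHY Qb K μ (lc s ξ) h.fd.gp.trd halg
  have hdgμ : dg Qb (Set.range μ) ≤ e ^ m * r := by
    have h1 : Set.range μ = τ^[m] '' {ξ 2, ξ 3, ξ 4} := by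
      rw [hμ]
      ext z
      simp only [Set.mem_range, Set.mem_image, Set.mem_insert_iff, Set.mem_singleton_iff]
      constructor
      · rintro ⟨i, rfl⟩
        refine ⟨ξ i.succ.succ, ?_, rfl⟩
        fin_cases i
        · exact Or.inl rfl
        · exact Or.inr (Or.inl rfl)
        · exact Or.inr (Or.inr rfl)
      · rintro ⟨x, (rfl | rfl | rfl), rfl⟩
        · exact ⟨0, rfl⟩
        · exact ⟨1, rfl⟩
        · exact ⟨2, rfl⟩
    rw [h1, Pool.Agent.H8.TD.Al.pbk Qb K τ m]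
    have h2 := hBZX Qb K P r ξ h.hyp h.fd.gp (Pi.single 2 1) (Pi.single 3 1) (Pi.single 4 1)
    rw [lc_single, lc_single, lc_single] at h2
    exact Nat.mul_le_mul (Nat.pow_le_pow_left h.deg m) h2
  have hYE : Y * E ≤ r ^ 2 * (Y' * dg Qb (Set.range μ)) := by
    obtain ⟨B, hB⟩ : ∃ B, B = Y' * dg Qb (Set.range μ) / E := ⟨_, rfl⟩
    have h1 : ∀ u u' : Fin 3 → Qb, dg Qb {lc s ξ, lc u μ, lc u' μ} ≤ B := by
      intro u u'
      rw [hB, Nat.le_div_iff_mul_le (by omega)]
      exact hdeg u u'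
    have h2 : ∀ (u' : Fin 3 → Qb) (s' : Fin 5 → Qb),
        dg Qb {lc s' (pn τ ξ m), lc s ξ, lc u' μ} ≤ r * B := by
      intro u' s'
      apply lc_bound hINX hNPA h m
      intro u
      rw [← hμ, Set.insert_comm]
      exact h1 u u'
    have h3 : dg Qb {lc s'' (pn τ ξ m), lc s ξ, lc s' (pn τ ξ m)} ≤ r * (r * B) := by
      apply lc_bound hINX hNPA h m
      intro u'
      have h4 := h2 u' s'
      rw [← hμ]
      have h5 : ({lc u' μ, lc s ξ, lc s' (pn τ ξ m)} : Set K) =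
          {lc s' (pn τ ξ m), lc s ξ, lc u' μ} := by
        rw [Set.insert_comm, Set.pair_comm (lc u' μ), Set.insert_comm]
      rw [h5]
      exact h4
    have h6 : ({lc s'' (pn τ ξ m), lc s ξ, lc s' (pn τ ξ m)} : Set K) =
        {lc s ξ, lc s' (pn τ ξ m), lc s'' (pn τ ξ m)} := by
      rw [Set.insert_comm, Set.pair_comm (lc s'' _)]
    rw [h6, hY] at h3
    have h7 : B * E ≤ Y' * dg Qb (Set.range μ) := by
      rw [hB]
      exact Nat.div_mul_le_self _ _
    calc Y * E ≤ r * (r * B) * E := Nat.mul_le_mul_right _ h3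
      _ = r ^ 2 * (B * E) := by ring
      _ ≤ _ := Nat.mul_le_mul_left _ h7
  refine ⟨E, Y', Cf, hE, hCf, hcop, hCf0, hirr, ?_, fun l => ?_⟩
  · have he0 : (0 : ℝ) < (e : ℝ) ^ m := by
      have : (0 : ℝ) < e := by exact_mod_cast he
      positivity
    have hr0 : (0 : ℝ) < r := by
      have h1 : (1 : ℝ) ≤ r := by exact_mod_cast hr
      linarith
    have h1 : Y * E ≤ r ^ 2 * (Y' * (e ^ m * r)) :=
      hYE.trans (Nat.mul_le_mul_left _ (Nat.mul_le_mul_left _ hdgμ))
    have h2 : (Y : ℝ) * E ≤ (r : ℝ) ^ 2 * (Y' * ((e : ℝ) ^ m * r)) := by exact_mod_cast h1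
    rw [mul_div_assoc', div_le_iff₀ (by positivity)]
    calc (E : ℝ) * Y = Y * E := mul_comm _ _
      _ ≤ _ := h2
      _ = _ := by ring
  · obtain ⟨g, hg⟩ := iter_algHomX τ l
    have h1 := congrArg g hrel
    rw [map_sum, map_zero] at h1
    rw [← h1]
    refine Finset.sum_congr rfl fun j _ => ?_
    have h2 : g (aeval (Fin.cons 1 μ : Fin 4 → K) (Cf j)) =
        aeval (fun i : Fin 4 => pn τ ξ (m + l) i.succ) (Cf j) := by
      have h3 : (fun i : Fin 4 => pn τ ξ (m + l) i.succ) =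
          fun i => g ((Fin.cons 1 μ : Fin 4 → K) i) := by
        funext i
        refine Fin.cases ?_ (fun i' => ?_) i
        · rw [Fin.cons_zero, map_one]
          exact pn_one h.fd (m + l)
        · rw [Fin.cons_succ, hμ, hg, Nat.add_comm m l]
          exact (pn_add l m i'.succ.succ).symm
      rw [h3, ← AlgHom.comp_apply, comp_aeval]
    have h4 : g (lc s ξ) = lc s (pn τ ξ l) := by
      rw [lc_map, hg]
      rfl
    rw [map_mul, map_pow, h2, h4]

/-- the polynomial form of the equation -/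
theorem eq_poly (h : DatX P r F ξ τ a e) {d : ℕ} (hF : ∀ i, (F i).IsHomogeneous d) {m E Y' : ℕ}
    {Cf : Fin (E + 1) → Po 4 Qb} (hCf : ∀ j, (Cf j).IsHomogeneous Y') {s : Fin 5 → Qb}
    (hrel : ∀ l : ℕ, ∑ j : Fin (E + 1), aeval (fun i : Fin 4 => pn τ ξ (m + l) i.succ) (Cf j) *
        lc s (pn τ ξ l) ^ (E - (j : ℕ)) = 0) (l : ℕ) :
    P ∣ ∑ j : Fin (E + 1), aeval (fun i : Fin 4 => it F (m + l) i.succ) (Cf j) *
      (sF F l s ^ (E - (j : ℕ)) * it F l 1 ^ (j : ℕ)) := by
  refine (h.fd.gp.iff (d ^ (m + l) * Y' + d ^ l * E) _ ?_).1 ?_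
  · apply IsHomogeneous.sum
    intro j _
    have h1 : (aeval (fun i : Fin 4 => it F (m + l) i.succ) (Cf j)).IsHomogeneous
        (d ^ (m + l) * Y') := (hCf j).aeval _ fun i => it_hom hF (m + l) i.succ
    have h2 := ((sF_hom hF l s).pow (E - (j : ℕ))).mul ((it_hom hF l 1).pow (j : ℕ))
    have h3 : d ^ l * (E - (j : ℕ)) + d ^ l * (j : ℕ) = d ^ l * E := by
      rw [← mul_add]
      congr 1
      have := j.2
      omega
    rw [h3] at h2
    exact h1.mul h2
  · have hF1 := h.ne (m + l)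
    have hl := h.ne l
    have h1 : ∀ j : Fin (E + 1), aeval ξ (aeval (fun i : Fin 4 => it F (m + l) i.succ) (Cf j) *
        (sF F l s ^ (E - (j : ℕ)) * it F l 1 ^ (j : ℕ))) =
        (aeval ξ (it F (m + l) 1) ^ Y' * aeval ξ (it F l 1) ^ E) *
          (aeval (fun i : Fin 4 => pn τ ξ (m + l) i.succ) (Cf j) *
            lc s (pn τ ξ l) ^ (E - (j : ℕ))) := by
      intro j
      have h2 : aeval ξ (aeval (fun i : Fin 4 => it F (m + l) i.succ) (Cf j)) =
          aeval ξ (it F (m + l) 1) ^ Y' *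
            aeval (fun i : Fin 4 => pn τ ξ (m + l) i.succ) (Cf j) := by
        rw [← aeval_smul_hom (hCf j), ← AlgHom.comp_apply, comp_aeval]
        congr 2
        funext i
        rw [h.eq, mul_div_cancel₀ _ hF1]
      have h3 : aeval ξ (sF F l s) = lc s (pn τ ξ l) * aeval ξ (it F l 1) := by
        rw [lc_pn (h.eq l), div_mul_cancel₀ _ hl]
      have h4 : E - (j : ℕ) + (j : ℕ) = E := by
        have := j.2
        omega
      rw [map_mul, map_mul, map_pow, map_pow, h2, h3, mul_pow]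
      have h5 : aeval ξ (it F l 1) ^ E = aeval ξ (it F l 1) ^ (E - (j : ℕ)) *
          aeval ξ (it F l 1) ^ (j : ℕ) := by
        rw [← pow_add, h4]
      rw [h5]
      ring
    rw [map_sum, Finset.sum_congr rfl fun j _ => h1 j, ← Finset.mul_sum, hrel l, mul_zero]

end

end Pool.Agent.H18.TXB
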