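import Pool.Agent.H18.TXB.Targets
import Pool.Agent.H8.TX.Rec4

/-!
# Backward heights on threefolds: the recursion
-/

set_option autoImplicit false

open MvPolynomial
open Pool.Agent.H12.ZD (pmap)
open Pool.Agent.H18.HIT Pool.Agent.H18.HX Pool.Agent.H18.VZ
open Pool.Agent.H8.ZA (HFam Const NA)
open Pool.Agent.H8.TD (lc dg Wsp Cop dh lc_single lc_map lc_iterate)
open Pool.Agent.H8.TX

namespace Pool.Agent.H18.TXB

section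

variable {K : Type} [Field K] [Algebra Qb K] {P : Po 5 Qb} {F : Tup 5 Qb} {ξ : Fin 5 → K}
  {τ : K →ₐ[Qb] K} {r : ℕ} {a : ℕ → ℕ} {e : ℕ}

theorem set_rot {A : Type*} (x y z : A) : ({x, y, z} : Set A) = {z, x, y} := by
  rw [Set.insert_comm z x, Set.pair_comm z y]

/-- the numbers at a good scale -/
theorem numbersB (hINX : T_INX) (hBZX : T_BZX) (hLDX : T_LDX) (hGRB : T_GRB)
    (h : DatX P r F ξ τ a e) (hr : 1 ≤ r) (Λ : ℕ) (he : 1 ≤ e) (c : ℝ) (hec : (e : ℝ) < c)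
    (hgrow : ∀ N, ∃ n ≥ N, ∃ s s' s'' : Fin 5 → Qb,
      c ^ n ≤ (dg Qb {lc s ξ, lc s' (pn τ ξ n), lc s'' (pn τ ξ n)} : ℝ))
    (hslow : ∀ c' : ℝ, (e : ℝ) < c' → ∃ N, ∀ n ≥ N, (a n : ℝ) < c' ^ n) :
    ∃ (m Y Y₂ : ℕ), 1 ≤ m ∧ 1 ≤ Y ∧ Bg Qb (pn τ ξ m) (pn τ ξ m) ξ Y ∧
      (∃ s s' s'' : Fin 5 → Qb, dg Qb {lc s ξ, lc s' (pn τ ξ m), lc s'' (pn τ ξ m)} = Y) ∧
      (∃ s s' s'' : Fin 5 → Qb,
        dg Qb {lc s ξ, lc s' (pn τ ξ (m + m)), lc s'' (pn τ ξ (m + m))} = Y₂) ∧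
      Λ * (e ^ m * Y) < Y₂ ∧ Λ * (e ^ m * a m) * Y ^ 2 ≤ Y₂ ^ 2 ∧ Λ * (e ^ m * a m) ≤ Y₂ := by
  choose Y _ hY1 hY2 using fun m => exists_maxg (h.b3 hINX hBZX m m)
  have h1 : ∀ m n, Y (m + n) ≤ a n ^ 2 * Y m := by
    intro m n
    obtain ⟨s, s', s'', h2⟩ := hY2 (m + n)
    have h3 := h.ins hINX m n _ _ _ (hY1 m)
    have h4 := h.ins hINX m n _ _ _ h3.swap
    rw [← h2]
    refine (h4 s s' s'').trans (le_of_eq ?_)
    ring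
  obtain ⟨m, hm, g1, g2, g3⟩ := hGRB a Y e r Λ c h.pos hr (fun m n => by
      refine (h.sub hINX hBZX hLDX m n).trans (le_of_eq ?_)
      ring) h1 he hec (by
    intro N
    obtain ⟨n, hn, s, s', s'', h2⟩ := hgrow N
    refine ⟨n, hn, h2.trans ?_⟩
    have h3 := hY1 n s' s'' s
    rw [set_rot] at h3
    have h4 : (dg Qb {lc s ξ, lc s' (pn τ ξ n), lc s'' (pn τ ξ n)} : ℝ) ≤ Y n := by
      exact_mod_cast h3
    have h5 : (1 : ℝ) ≤ r := by exact_mod_cast hr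
    have h6 : (0 : ℝ) ≤ Y n := Nat.cast_nonneg _
    have h7 : 1 * (Y n : ℝ) ≤ r * Y n := mul_le_mul_of_nonneg_right h5 h6
    linarith) hslow
  have hY0 : 1 ≤ Y m := by
    rw [Nat.one_le_iff_ne_zero]
    intro h0
    have h2 := h1 m m
    rw [h0, Nat.mul_zero] at h2
    omega
  refine ⟨m, Y m, Y (m + m), hm, hY0, hY1 m, ?_, ?_, g1, g2, g3⟩
  · obtain ⟨s, s', s'', h2⟩ := hY2 m
    exact ⟨s'', s, s', by rw [← h2, set_rot (lc s _)]⟩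
  · obtain ⟨s, s', s'', h2⟩ := hY2 (m + m)
    exact ⟨s'', s, s', by rw [← h2, set_rot (lc s _)]⟩

/-- the recursion for the heights along backward orbits -/
theorem recB (hINX : T_INX) (hBZX : T_BZX) (hLDX : T_LDX) (hGRB : T_GRB) (hKNX : T_KNX)
    (hRNG : T_RNG) (hEXN : T_EXN) (h : DatX P r F ξ τ a e) (hr : 1 ≤ r) (he : 1 ≤ e)
    (c : ℝ) (hec : (e : ℝ) < c)
    (hgrow : ∀ N, ∃ n ≥ N, ∃ s s' s'' : Fin 5 → Qb,
      c ^ n ≤ (dg Qb {lc s ξ, lc s' (pn τ ξ n), lc s'' (pn τ ξ n)} : ℝ))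
    (hslow : ∀ c' : ℝ, (e : ℝ) < c' → ∃ N, ∀ n ≥ N, (a n : ℝ) < c' ^ n) :
    ∃ (m Y : ℕ) (κ β : ℝ) (T : Finset (Po 5 Qb)) (s s' s'' : Fin 5 → Qb), 1 ≤ m ∧ 1 ≤ Y ∧
      (∀ p ∈ T, aeval ξ p ≠ 0) ∧ 0 ≤ β ∧ 2 < κ ∧ 8 * β ≤ κ ^ 2 ∧
      8 * β ≤ κ * ((Y : ℝ) / ((r : ℝ) ^ 3 * (e : ℝ) ^ m)) ∧
      dg Qb {lc s ξ, lc s' (pn τ ξ m), lc s'' (pn τ ξ m)} = Y ∧
      ∀ (K' : IntermediateField ℚ Qb) (F' : HFam K'), ∃ c₀ : ℝ,
        ∀ (μ : ℕ) (z : Fin μ → Fin 5 → Qb), (∀ j, eval (z j) P = 0) → (∀ j, z j 1 = 1) →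
          (∀ j, ∀ p ∈ T, eval (z j) p ≠ 0) → (∀ p ∈ T, ∏ j, eval (z j) p ∈ K') →
          κ * ∑ j, hn F' (af (pmap (it F m) (z j))) ≤ ∑ j, hn F' (z j) +
            β * ∑ j, hn F' (af (pmap (it F (m + m)) (z j))) + μ * c₀ := by
  classical
  obtain ⟨m, Y, Y₂, hm, hY, hBg, ⟨s, s', s'', hYs⟩, ⟨t, t', t'', hYt⟩, g1, g2, g3⟩ :=
    numbersB hINX hBZX hLDX hGRB h hr (16200 * r ^ 3) he c hec hgrow hslow
  have hY₂1 : 1 ≤ Y₂ := Nat.one_le_iff_ne_zero.2 fun h0 => by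
    rw [h0] at g1
    exact Nat.not_lt_zero _ g1
  obtain ⟨q, hqdef⟩ : ∃ q : Po 5 Qb, q = it F m 1 * it F (m + m) 1 := ⟨_, rfl⟩
  have hq : aeval ξ q ≠ 0 := by
    rw [hqdef, map_mul]
    exact mul_ne_zero (h.ne _) (h.ne _)
  obtain ⟨R, hmem, hinv, hevR, hnumR⟩ := hRNG Qb K P q ξ h.fd.gp hq
  have hpn : ∀ n, n = m ∨ n = m + m → ∀ i, pn τ ξ n i ∈ R := by
    intro n hn i
    rw [h.eq n i]
    have h1 : (aeval ξ (it F n 1))⁻¹ ∈ R := by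
      rcases hn with rfl | rfl
      · have h2 : (aeval ξ (it F n 1))⁻¹ = (aeval ξ q)⁻¹ * aeval ξ (it F (n + n) 1) := by
          rw [hqdef, map_mul, mul_inv, mul_assoc, inv_mul_cancel₀ (h.ne _), mul_one]
        rw [h2]
        exact mul_mem hinv (hmem _)
      · have h2 : (aeval ξ (it F (m + m) 1))⁻¹ = (aeval ξ q)⁻¹ * aeval ξ (it F m 1) := by
          rw [hqdef, map_mul, mul_inv, mul_comm (aeval ξ (it F m 1))⁻¹, mul_assoc,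
            inv_mul_cancel₀ (h.ne _), mul_one]
        rw [h2]
        exact mul_mem hinv (hmem _)
    rw [div_eq_mul_inv]
    exact mul_mem (hmem _) h1
  have hξR : ∀ i, ξ i ∈ R := by
    intro i
    have h1 := hmem (X i)
    rwa [aeval_X] at h1
  obtain ⟨φ₁, hφ₁⟩ : ∃ φ₁ : Fin 5 → R, φ₁ = fun i => ⟨pn τ ξ m i, hpn m (Or.inl rfl) i⟩ :=
    ⟨_, rfl⟩
  obtain ⟨φ₂, hφ₂⟩ : ∃ φ₂ : Fin 5 → R,
    φ₂ = fun i => ⟨pn τ ξ (m + m) i, hpn (m + m) (Or.inr rfl) i⟩ := ⟨_, rfl⟩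
  obtain ⟨x, hx⟩ : ∃ x : Fin 5 → R, x = fun i => ⟨ξ i, hξR i⟩ := ⟨_, rfl⟩
  have e1 : (fun i => (φ₁ i : K)) = pn τ ξ m := by rw [hφ₁]
  have e2 : (fun i => (φ₂ i : K)) = pn τ ξ (m + m) := by rw [hφ₂]
  have e0 : (fun i => (x i : K)) = ξ := by rw [hx]
  have e1' : ∀ i, (φ₁ i : K) = pn τ ξ m i := fun i => congrFun e1 i
  have hfg := fg_top h.fd.gp
  -- the three bounds
  have hb1 : Bg Qb (pn τ ξ m) (pn τ ξ (m + m)) (pn τ ξ (m + m)) (e ^ m * Y) := by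
    have h1 : Bg Qb ξ (pn τ ξ m) (pn τ ξ m) Y := hBg.rot.swap
    have h2 := h.pbk m h1
    have h3 : (fun i => τ^[m] (pn τ ξ m i)) = pn τ ξ (m + m) := funext fun i => pn_add m m i
    rw [h3] at h2
    exact h2
  have hb2 : Bg Qb (pn τ ξ m) (pn τ ξ (m + m)) ξ (a m * Y) :=
    (h.ins hINX m m _ _ _ hBg).swap
  have hM1 : 1 ≤ a m * Y := Nat.one_le_iff_ne_zero.2 (Nat.mul_ne_zero
    (by have := h.pos m; omega) (by omega))
  obtain ⟨T, hT, hkey⟩ := kin5 hKNX h.fd.gp q hq R hevR hmem hnumR x φ₂ φ₁ Y₂ (e ^ m * Y)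
    (a m * Y) t t' t''
    (by
      rw [e0, e2, IntermediateField.adjoin_union, h.fd.gp.top, top_sup_eq])
    hY₂1 hM1 (by rw [e0, e2, hYt]) (by rw [e1, e2]; exact hb1)
    (by rw [e0, e1, e2]; exact hb2)
    (by
      intro i
      rw [e2, e1' i]
      rcases const_or (pn τ ξ m i) with h4 | h4
      · exact Or.inl h4
      · right
        exact hEXN Qb K 5 5 (pn τ ξ (m + m)) (pn τ ξ (m + m)) (pn τ ξ m i) h.fd.gp.trd hfg h4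
          (alg_pn h.fd.gp _) (alg_pn h.fd.gp _))
  have he0 : (0 : ℝ) < (e : ℝ) ^ m := by
    have : (0 : ℝ) < e := by exact_mod_cast he
    positivity
  have hY0 : (0 : ℝ) < Y := by exact_mod_cast hY
  have hr' : (1 : ℝ) ≤ r := by exact_mod_cast hr
  have hr0 : (0 : ℝ) < r := by linarith
  have hr3 : (1 : ℝ) ≤ (r : ℝ) ^ 3 := one_le_pow₀ hr'
  have hU : (0 : ℝ) < 45 * ((e : ℝ) ^ m * Y) := by positivity
  refine ⟨m, Y, (Y₂ : ℝ) / (45 * ((e : ℝ) ^ m * Y)), (a m : ℝ) / (e : ℝ) ^ m, insert q T,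
    s, s', s'', hm, hY, ?_, by positivity, ?_, ?_, ?_, hYs, fun K' F' => ?_⟩
  · intro p hp
    rcases Finset.mem_insert.1 hp with rfl | hp
    · exact hq
    · exact hT p hp
  · rw [lt_div_iff₀ hU]
    have h1 : 16200 * (r : ℝ) ^ 3 * ((e : ℝ) ^ m * Y) < Y₂ := by exact_mod_cast g1
    have h2 : 1 * ((e : ℝ) ^ m * Y) ≤ (r : ℝ) ^ 3 * ((e : ℝ) ^ m * Y) :=
      mul_le_mul_of_nonneg_right hr3 (by positivity)
    have h3 : (0 : ℝ) < (e : ℝ) ^ m * Y := by positivity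
    linarith
  · rw [div_pow, mul_div_assoc', div_le_div_iff₀ he0 (by positivity)]
    have h1 : 16200 * (r : ℝ) ^ 3 * ((e : ℝ) ^ m * a m) * (Y : ℝ) ^ 2 ≤ (Y₂ : ℝ) ^ 2 := by
      exact_mod_cast g2
    have h0 : (0 : ℝ) ≤ (e : ℝ) ^ m * a m * (Y : ℝ) ^ 2 := by positivity
    have h2 : 1 * ((e : ℝ) ^ m * a m * (Y : ℝ) ^ 2) ≤
        (r : ℝ) ^ 3 * ((e : ℝ) ^ m * a m * (Y : ℝ) ^ 2) := mul_le_mul_of_nonneg_right hr3 h0
    have h3 : 16200 * ((e : ℝ) ^ m * a m * (Y : ℝ) ^ 2) ≤ (Y₂ : ℝ) ^ 2 := by linarith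
    have h4 := mul_le_mul_of_nonneg_right h3 he0.le
    calc 8 * (a m : ℝ) * (45 * ((e : ℝ) ^ m * Y)) ^ 2 =
        16200 * ((e : ℝ) ^ m * a m * (Y : ℝ) ^ 2) * (e : ℝ) ^ m := by ring
      _ ≤ _ := h4
  · have h1 : 16200 * (r : ℝ) ^ 3 * ((e : ℝ) ^ m * a m) ≤ (Y₂ : ℝ) := by exact_mod_cast g3
    have h3 : (Y₂ : ℝ) / (45 * ((e : ℝ) ^ m * Y)) * (Y / ((r : ℝ) ^ 3 * (e : ℝ) ^ m)) =
        Y₂ / (45 * (r : ℝ) ^ 3 * ((e : ℝ) ^ m * (e : ℝ) ^ m)) := by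
      field_simp
    have ha0 : (0 : ℝ) ≤ (r : ℝ) ^ 3 * ((e : ℝ) ^ m * a m) := by positivity
    rw [h3, mul_div_assoc', div_le_div_iff₀ he0 (by positivity)]
    have h4 : 360 * ((r : ℝ) ^ 3 * ((e : ℝ) ^ m * a m)) ≤ Y₂ := by linarith
    have h2 := mul_le_mul_of_nonneg_right h4 he0.le
    calc 8 * (a m : ℝ) * (45 * (r : ℝ) ^ 3 * ((e : ℝ) ^ m * (e : ℝ) ^ m)) =
        360 * ((r : ℝ) ^ 3 * ((e : ℝ) ^ m * a m)) * (e : ℝ) ^ m := by ring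
      _ ≤ _ := h2
  · obtain ⟨c₁, hc₁⟩ := hkey K' F'
    refine ⟨c₁ / (45 * ((e : ℝ) ^ m * Y)), fun μ z hzP hz1 hzT hzK => ?_⟩
    obtain ⟨ev, hev, hineq⟩ := hc₁ μ z hzP hz1
      (fun j p hp => hzT j p (Finset.mem_insert_of_mem hp))
      (fun p hp => hzK p (Finset.mem_insert_of_mem hp))
    have hzq : ∀ j, eval (z j) (it F m 1) ≠ 0 ∧ eval (z j) (it F (m + m) 1) ≠ 0 := by
      intro j
      have h4 := hzT j q (Finset.mem_insert_self _ _)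
      rw [hqdef, map_mul] at h4
      exact ⟨left_ne_zero_of_mul h4, right_ne_zero_of_mul h4⟩
    have haff : ∀ (n : ℕ) (φ : Fin 5 → R) (j : Fin μ), eval (z j) (it F n 1) ≠ 0 →
        (∀ i, (φ i : K) = pn τ ξ n i) →
        (fun i => ev j (φ i)) = af (pmap (it F n) (z j)) := by
      intro n φ j hn hφ
      funext i
      have h4 : φ i * ⟨aeval ξ (it F n 1), hmem _⟩ = ⟨aeval ξ (it F n i), hmem _⟩ := by
        apply Subtype.ext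
        change (φ i : K) * aeval ξ (it F n 1) = aeval ξ (it F n i)
        rw [hφ, h.eq, div_mul_cancel₀ _ (h.ne n)]
      have h5 := congrArg (ev j) h4
      rw [map_mul, hev, hev] at h5
      rw [af, pmap, pmap, eq_div_iff hn]
      exact h5
    have f1 : ∀ j, (fun i => ev j (φ₁ i)) = af (pmap (it F m) (z j)) := fun j =>
      haff m φ₁ j (hzq j).1 e1'
    have f2 : ∀ j, (fun i => ev j (φ₂ i)) = af (pmap (it F (m + m)) (z j)) := fun j =>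
      haff (m + m) φ₂ j (hzq j).2 (fun i => congrFun e2 i)
    have f3 : ∀ j, (fun i => ev j (x i)) = z j := by
      intro j
      funext i
      have h4 : x i = ⟨aeval ξ (X i), hmem _⟩ := by
        apply Subtype.ext
        rw [hx]
        exact (aeval_X ξ i).symm
      rw [h4, hev, eval_X]
    simp only [f1, f2, f3] at hineq
    push_cast at hineq
    have h6 : (Y₂ : ℝ) / (45 * ((e : ℝ) ^ m * Y)) * ∑ j, hn F' (af (pmap (it F m) (z j))) =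
        (Y₂ * ∑ j, hn F' (af (pmap (it F m) (z j)))) / (45 * ((e : ℝ) ^ m * Y)) := by ring
    have h7 : ∑ j, hn F' (z j) + (a m : ℝ) / (e : ℝ) ^ m *
        ∑ j, hn F' (af (pmap (it F (m + m)) (z j))) + μ * (c₁ / (45 * ((e : ℝ) ^ m * Y))) =
        (45 * ((e : ℝ) ^ m * Y) * ∑ j, hn F' (z j) +
          45 * (a m * Y) * ∑ j, hn F' (af (pmap (it F (m + m)) (z j))) + μ * c₁) /
          (45 * ((e : ℝ) ^ m * Y)) := by
      field_simp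
    rw [h6, h7]
    exact div_le_div_of_nonneg_right hineq hU.le

end

end Pool.Agent.H18.TXB
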